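import Mathlib
import Pool.Agent.Lib.MP_562b47_mp.QP.Flip
import Pool.Agent.Lib.MP_562b47_mp.QP.Green
import Pool.Agent.Lib.MP_562b47_mp.QP.One

/-!
Energy-local Pólya criterion (MP_562b47_mp), module Low: the scale and the near set of a site, as in
`QP.Low`, for all `z` with `z.im ≥ len c n`.

z.im = η ≥ len c n.  Fix x, G ω = Gt e H o ω z x x ≠ 0 (im_Gt_pos), ζ ω = (clp c (ω x) : ℂ) - 1 / G ω.
(1) ζ (update ω x v) = ζ ω for all v: 1/G' = 1/G + (clp v - clp (ω x)) (Gt_upd_mul).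
(2) Im ζ = Im G/‖G‖² ≥ η (ward with F = {x}: η ‖G‖² ≤ Im G), so ρ ω := rho c (ζ ω) ≥ η = len c n > 0 (im_le_rho).
(3) g ω = gg e H ω z o x: g (update ω x v) = κ / (clp v - ζ) with κ = g ω / G ω (gg_upd_mul:
    g' (1 + Δ G) = g, 1 + Δ G = G (clp v - ζ)).
W k := {ω | len c k ≤ ρ ω ∧ ∀ j < k, ρ ω < len c j}; Nr := {ω | ω x ∈ Ico (-c) c ∧ ‖(ω x : ℂ) - ζ ω‖ ≤ 5 ρ ω}.
Measurable (ζ is continuous: continuous_Gt), disjoint, W k is invariant under updates of ω x by (1), and by (2)
every ω is in W k for exactly one k ≤ n (the least k with len c k ≤ ρ ω; len is decreasing).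
(4) ω ∈ W k ∩ Nr: v = ω x ∈ Ico, v' = flp c k v ∈ Ico, |v' - v| = len c k ≤ ρ ≤ ‖v - ζ‖ (rho_le), so
    ‖v' - ζ‖ ≤ 2 ‖v - ζ‖ and ‖g ω‖ = ‖g (σω)‖ ‖v' - ζ‖/‖v - ζ‖ ≤ 2 ‖g (σ ω)‖; |sn| = 1 (abs_sgn).
(5) mass: integral_resample (Decay3.lean) for h = ‖g‖² and for h = indicator of Nr times ‖g‖²: for every ω, by (1), (3),
    ∫ ‖g (update ω x v)‖² dunif(v) = ‖κ‖² ∫ ‖v - ζ‖^{-2} ≤ 2 ‖κ‖² ∫_{near} ‖v - ζ‖^{-2} = 2 ∫ 1_{Nr}(update ω x v) ‖g (update ω x v)‖²
    (mass_near; v ∈ Ico (-c) c for unif-a.e. v, clp v = v).  Integrate over ω: nn g ≤ 2 ∫_{Nr} ‖g‖² =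
    2 ∑_{k ≤ n} ∫_{W k ∩ Nr} ‖g‖².
(6) prob: P(W k ∩ Nr) = ∫ 1_{W k}(ω) unif{v ∈ Ico : ‖v - ζ ω‖ ≤ 5 ρ ω} dPP (integral_resample for the indicator, (1));
    k = 0: ≤ P(W 0) ≤ 10 P(W 0).  k ≥ 1: ρ < len c (k-1) = 2 c/2^k on W k, so unif(..) ≤ 5ρ/c ≤ 10/2^k (unif_near).
-/

open MeasureTheory Set Filter Topology Complex
open scoped Real ENNReal NNReal InnerProductSpace

namespace Pool.Agent.Lib.MP_562b47_mp.QV

open Pool.Agent.Lib.MP_562b47_mp.QP

variable {Λ : Type*} [DecidableEq Λ] [Countable Λ] {E : Type*} [NormedAddCommGroup E]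
  [InnerProductSpace ℂ E] [CompleteSpace E] {c : ℝ} {e : Λ → E} {H : (Λ → ℝ) → (E →L[ℂ] E)}

omit [DecidableEq Λ] [Countable Λ] [CompleteSpace E] in
private theorem qp_len_lt {c : ℝ} (hc : 0 < c) {j k : ℕ} (h : j ≤ k) : len c k ≤ len c j := by
  unfold len
  exact div_le_div_of_nonneg_left hc.le (by positivity)
    (pow_le_pow_right₀ (by norm_num) h)

/-- Green function at `x` -/
private noncomputable def qp_G (e : Λ → E) (H : (Λ → ℝ) → (E →L[ℂ] E)) (o x : Λ) (z : ℂ)
    (ω : Λ → ℝ) : ℂ := Gt e H o ω z x x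

/-- the pole -/
private noncomputable def qp_ze (c : ℝ) (e : Λ → E) (H : (Λ → ℝ) → (E →L[ℂ] E)) (o x : Λ) (z : ℂ)
    (ω : Λ → ℝ) : ℂ := ((clp c (ω x) : ℝ) : ℂ) - (qp_G e H o x z ω)⁻¹

omit [Countable Λ] in
private theorem qp_G_ne (M : Model c e H) (o x : Λ) {z : ℂ} (hz : 0 < z.im) (ω : Λ → ℝ) :
    qp_G e H o x z ω ≠ 0 := by
  intro h
  have h1 := im_Gt_pos M o ω hz x
  unfold qp_G at h
  rw [h, Complex.zero_im] at h1
  exact lt_irrefl _ h1

omit [Countable Λ] in
private theorem qp_one_add (M : Model c e H) (o x : Λ) {z : ℂ} (hz : 0 < z.im) (ω : Λ → ℝ)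
    (v : ℝ) : 1 + ((clp c v - clp c (ω x) : ℝ) : ℂ) * qp_G e H o x z ω =
      qp_G e H o x z ω * (((clp c v : ℝ) : ℂ) - qp_ze c e H o x z ω) := by
  have h := qp_G_ne M o x hz ω
  unfold qp_ze
  push_cast
  field_simp
  ring

omit [Countable Λ] in
private theorem qp_one_add_ne (M : Model c e H) (o x : Λ) {z : ℂ} (hz : 0 < z.im) (ω : Λ → ℝ)
    (v : ℝ) : ((clp c v : ℝ) : ℂ) - qp_ze c e H o x z ω ≠ 0 := by
  intro h0
  have h := Gt_upd_mul M o ω hz x v
  have h1 := qp_one_add M o x hz ω v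
  rw [h0, mul_zero] at h1
  unfold qp_G at h1
  rw [h1, mul_zero] at h
  exact qp_G_ne M o x hz ω h.symm

omit [Countable Λ] in
private theorem qp_ze_upd (M : Model c e H) (o x : Λ) {z : ℂ} (hz : 0 < z.im) (ω : Λ → ℝ)
    (v : ℝ) : qp_ze c e H o x z (Function.update ω x v) = qp_ze c e H o x z ω := by
  have h := Gt_upd_mul M o ω hz x v
  have h1 := qp_one_add M o x hz ω v
  have h2 := qp_G_ne M o x hz ω
  have h3 := qp_G_ne M o x hz (Function.update ω x v)
  have h4 := qp_one_add_ne M o x hz ω v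
  have h5 : qp_G e H o x z (Function.update ω x v) *
      (((clp c v : ℝ) : ℂ) - qp_ze c e H o x z ω) = 1 := by
    have h6 : qp_G e H o x z (Function.update ω x v) *
        (qp_G e H o x z ω * (((clp c v : ℝ) : ℂ) - qp_ze c e H o x z ω)) =
        qp_G e H o x z ω := by
      rw [← h1]; exact h
    have h7 : qp_G e H o x z ω * (qp_G e H o x z (Function.update ω x v) *
        (((clp c v : ℝ) : ℂ) - qp_ze c e H o x z ω)) = qp_G e H o x z ω * 1 := by
      rw [mul_one, mul_left_comm]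
      exact h6
    exact mul_left_cancel₀ h2 h7
  have h8 : (qp_G e H o x z (Function.update ω x v))⁻¹ =
      ((clp c v : ℝ) : ℂ) - qp_ze c e H o x z ω := inv_eq_of_mul_eq_one_right h5
  conv_lhs => unfold qp_ze
  rw [h8, Function.update_self]
  ring

omit [Countable Λ] in
private theorem qp_g_upd (M : Model c e H) (o x : Λ) {z : ℂ} (hz : 0 < z.im) (ω : Λ → ℝ)
    (v : ℝ) : ‖gg e H (Function.update ω x v) z o x‖ =
      ‖gg e H ω z o x‖ / ‖qp_G e H o x z ω‖ / ‖((clp c v : ℝ) : ℂ) - qp_ze c e H o x z ω‖ := by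
  have h := gg_upd_mul M o ω hz x v
  have h1 := qp_one_add M o x hz ω v
  have h2 := norm_pos_iff.mpr (qp_G_ne M o x hz ω)
  have h4 := norm_pos_iff.mpr (qp_one_add_ne M o x hz ω v)
  unfold qp_G at h1 h2 ⊢
  rw [h1] at h
  rw [← h, norm_mul, norm_mul]
  field_simp

omit [Countable Λ] in
private theorem qp_im (M : Model c e H) (o x : Λ) {z : ℂ} (hz : 0 < z.im) (ω : Λ → ℝ) :
    z.im ≤ rho c (qp_ze c e H o x z ω) := by
  refine le_trans ?_ (im_le_rho c _)
  have h := ward M o ω hz x {x}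
  rw [Finset.sum_singleton] at h
  have h2 := norm_pos_iff.mpr (qp_G_ne M o x hz ω)
  unfold qp_ze
  rw [Complex.sub_im, Complex.ofReal_im, Complex.inv_im, zero_sub, neg_div, neg_neg,
    Complex.normSq_eq_norm_sq, le_div_iff₀ (pow_pos h2 2)]
  exact h

omit [Countable Λ] in
private theorem qp_cont (M : Model c e H) (o x : Λ) {z : ℂ} (hz : 0 < z.im) :
    Continuous (qp_ze c e H o x z) := by
  unfold qp_ze qp_G
  have h1 : Continuous fun ω : Λ → ℝ => Gt e H o ω z x x :=
    continuous_Gt M o continuous_id continuous_const (fun _ => hz) x x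
  have h2 : Continuous fun ω : Λ → ℝ => (Gt e H o ω z x x)⁻¹ :=
    h1.inv₀ fun ω => qp_G_ne M o x hz ω
  exact (Complex.continuous_ofReal.comp ((continuous_clp c).comp (continuous_apply x))).sub h2

omit [Countable Λ] in
private theorem qp_integrable (hc : 0 < c) (y : Λ) {f : (Λ → ℝ) → ℝ} (hf : Measurable f) {C : ℝ}
    (hC : ∀ ω, |f ω| ≤ C) :
    Integrable (fun ω => ∫ v, f (Function.update ω y v) ∂(unif c)) (PP Λ c) := by
  have := PP_prob Λ hc
  have := unif_prob hc
  have hmp : MeasurePreserving (fun p : (Λ → ℝ) × ℝ => Function.update p.1 y p.2)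
      ((PP Λ c).prod (unif c)) (PP Λ c) := measurePreserving_upd (Λ := Λ) (unif c) y
  have hint : Integrable (fun p : (Λ → ℝ) × ℝ => f (Function.update p.1 y p.2))
      ((PP Λ c).prod (unif c)) := by
    refine Integrable.of_bound (C := C) (hf.comp hmp.measurable).aestronglyMeasurable
      (ae_of_all _ fun q => ?_)
    rw [Real.norm_eq_abs]
    exact hC _
  exact hint.integral_prod_left

theorem low_main (M : Model c e H) (o x : Λ) {z : ℂ} {n : ℕ} (hz : len c n ≤ z.im) :
    ∃ (W : ℕ → Set (Λ → ℝ)) (Nr : Set (Λ → ℝ)), (∀ k, MeasurableSet (W k)) ∧ MeasurableSet Nr ∧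
      (∀ j k, j ≠ k → Disjoint (W j) (W k)) ∧
      (∀ k ω, sg c (x, k) ω ∈ W k ↔ ω ∈ W k) ∧
      (∀ k, k ≤ n → ∀ ω ∈ W k ∩ Nr, |sn c (x, k) ω| = 1 ∧
        ‖gg e H ω z o x‖ ≤ 2 * ‖gg e H (sg c (x, k) ω) z o x‖) ∧
      nn (PP Λ c) (fun ω => gg e H ω z o x)
        ≤ 2 * ∑ k ∈ Finset.range (n + 1), ∫ ω in W k ∩ Nr, ‖gg e H ω z o x‖ ^ 2 ∂(PP Λ c) ∧
      ∀ k, k ≤ n → (PP Λ c).real (W k ∩ Nr) ≤ 10 / 2 ^ k * (PP Λ c).real (W k) := by
  classical
  have hc := M.hc
  have hz0 : 0 < z.im := (len_pos hc n).trans_le hz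
  have := PP_prob Λ hc
  have := unif_prob hc
  set ζ : (Λ → ℝ) → ℂ := qp_ze c e H o x z with hζ
  set ρ : (Λ → ℝ) → ℝ := fun ω => rho c (ζ ω) with hρ
  have hζc : Continuous ζ := qp_cont M o x hz0
  have hρc : Continuous ρ := (continuous_rho c).comp hζc
  have hζu : ∀ ω v, ζ (Function.update ω x v) = ζ ω := qp_ze_upd M o x hz0
  have hρu : ∀ ω v, ρ (Function.update ω x v) = ρ ω := fun ω v => by
    rw [hρ]; dsimp only; rw [hζu]
  have hρn : ∀ ω, len c n ≤ ρ ω := fun ω => hz.trans (qp_im M o x hz0 ω)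
  have hρ0 : ∀ ω, 0 < ρ ω := fun ω => (len_pos hc n).trans_le (hρn ω)
  set W : ℕ → Set (Λ → ℝ) := fun k => {ω | len c k ≤ ρ ω ∧ ∀ j < k, ρ ω < len c j} with hW
  set Nr : Set (Λ → ℝ) := {ω | ω x ∈ Ico (-c) c ∧ ‖((ω x : ℝ) : ℂ) - ζ ω‖ ≤ 5 * ρ ω} with hNr
  have hWm : ∀ k, MeasurableSet (W k) := by
    intro k
    have h1 : W k = {ω | len c k ≤ ρ ω} ∩ ⋂ j ∈ Finset.range k, {ω | ρ ω < len c j} := by
      ext ω
      simp only [hW, mem_ofPred_eq, mem_inter_iff, mem_iInter, Finset.mem_range]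
    rw [h1]
    refine (measurableSet_le measurable_const hρc.measurable).inter ?_
    exact Finset.measurableSet_biInter _ fun j _ => measurableSet_lt hρc.measurable measurable_const
  have hNm : MeasurableSet Nr := by
    have h1 : Nr = (fun ω : Λ → ℝ => ω x) ⁻¹' (Ico (-c) c) ∩
        {ω | ‖((ω x : ℝ) : ℂ) - ζ ω‖ ≤ 5 * ρ ω} := rfl
    rw [h1]
    refine (measurableSet_Ico.preimage (measurable_pi_apply x)).inter ?_
    refine measurableSet_le ?_ ?_
    · exact ((Complex.continuous_ofReal.comp (continuous_apply x)).sub hζc).norm.measurable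
    · exact (hρc.const_mul 5).measurable
  have hWd : ∀ j k, j < k → Disjoint (W j) (W k) := by
    intro j k hjk
    rw [Set.disjoint_left]
    intro ω h1 h2
    exact absurd (h2.2 j hjk) (not_lt.mpr h1.1)
  have hWd' : ∀ j k, j ≠ k → Disjoint (W j) (W k) := by
    intro j k hjk
    rcases lt_or_gt_of_ne hjk with h | h
    · exact hWd j k h
    · exact (hWd k j h).symm
  have hWu : ∀ k ω v, Function.update ω x v ∈ W k ↔ ω ∈ W k := by
    intro k ω v
    simp only [hW, mem_ofPred_eq, hρu]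
  have hWex : ∀ ω, ∃ k ≤ n, ω ∈ W k := by
    intro ω
    have hex : ∃ k, len c k ≤ ρ ω := ⟨n, hρn ω⟩
    refine ⟨Nat.find hex, Nat.find_min' hex (hρn ω), Nat.find_spec hex, fun j hj => ?_⟩
    exact not_le.mp (Nat.find_min hex hj)
  have hgc : Continuous fun ω : Λ → ℝ => gg e H ω z o x :=
    M.continuous_gg continuous_id continuous_const (fun _ => hz0) o x
  have hgb : ∀ ω, ‖gg e H ω z o x‖ ≤ 1 / z.im := fun ω =>
    (M.norm_gg_le ω hz0 o x).trans (M.norm_Gr_le ω hz0 o x)
  have hgb2 : ∀ ω, ‖gg e H ω z o x‖ ^ 2 ≤ (1 / z.im) ^ 2 := fun ω =>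
    pow_le_pow_left₀ (norm_nonneg _) (hgb ω) 2
  refine ⟨W, Nr, hWm, hNm, hWd', ?_, ?_, ?_, ?_⟩
  · intro k ω
    exact hWu k ω _
  · -- comparison after a flip
    rintro k hk ω ⟨hωW, hωx, hωN⟩
    refine ⟨abs_sgn k hωx, ?_⟩
    set v := ω x with hv
    have hv' : flp c k v ∈ Ico (-c) c := (flp_mem hc k v).mpr hωx
    have hclpv : clp c v = v := clp_of_mem ⟨hωx.1, hωx.2.le⟩
    have hclpv' : clp c (flp c k v) = flp c k v := clp_of_mem ⟨hv'.1, hv'.2.le⟩
    have hg1 := qp_g_upd M o x hz0 ω (flp c k v)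
    have hG : ‖qp_G e H o x z ω‖ * ‖(v : ℂ) - ζ ω‖ = 1 := by
      have h1 := qp_one_add M o x hz0 ω v
      rw [← hv, sub_self, Complex.ofReal_zero, zero_mul, add_zero, hclpv] at h1
      rw [← norm_mul, ← h1, norm_one]
    have hGp := norm_pos_iff.mpr (qp_G_ne M o x hz0 ω)
    have h3 : ‖((flp c k v : ℝ) : ℂ) - ζ ω‖ ≤ 2 * ‖(v : ℂ) - ζ ω‖ := by
      have h4 : ((flp c k v : ℝ) : ℂ) - ζ ω = ((v : ℂ) - ζ ω) + ((sgn c k v * len c k : ℝ) : ℂ) := by
        unfold flp; push_cast; ring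
      rw [h4]
      refine (norm_add_le _ _).trans ?_
      have h5 : ‖((sgn c k v * len c k : ℝ) : ℂ)‖ = len c k := by
        rw [Complex.norm_real, Real.norm_eq_abs, abs_mul, abs_sgn k hωx, one_mul,
          abs_of_pos (len_pos hc k)]
      have h6 : ρ ω ≤ ‖(v : ℂ) - ζ ω‖ := rho_le hc _ ⟨hωx.1, hωx.2.le⟩
      have h7 := hωW.1
      rw [h5]
      linarith
    have h4 : 0 < ‖((flp c k v : ℝ) : ℂ) - ζ ω‖ := by
      have := norm_pos_iff.mpr (qp_one_add_ne M o x hz0 ω (flp c k v))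
      rwa [hclpv'] at this
    have h5 : ‖gg e H (sg c (x, k) ω) z o x‖ = ‖gg e H ω z o x‖ / ‖qp_G e H o x z ω‖ /
        ‖((flp c k v : ℝ) : ℂ) - ζ ω‖ := by
      rw [hclpv'] at hg1
      exact hg1
    have h6 : ‖gg e H ω z o x‖ = ‖gg e H (sg c (x, k) ω) z o x‖ * ‖qp_G e H o x z ω‖ *
        ‖((flp c k v : ℝ) : ℂ) - ζ ω‖ := by
      rw [h5]; field_simp
    calc ‖gg e H ω z o x‖ = ‖gg e H (sg c (x, k) ω) z o x‖ * ‖qp_G e H o x z ω‖ *
        ‖((flp c k v : ℝ) : ℂ) - ζ ω‖ := h6
      _ ≤ ‖gg e H (sg c (x, k) ω) z o x‖ * ‖qp_G e H o x z ω‖ * (2 * ‖(v : ℂ) - ζ ω‖) :=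
          mul_le_mul_of_nonneg_left h3 (by positivity)
      _ = 2 * ‖gg e H (sg c (x, k) ω) z o x‖ * (‖qp_G e H o x z ω‖ * ‖(v : ℂ) - ζ ω‖) := by ring
      _ = 2 * ‖gg e H (sg c (x, k) ω) z o x‖ := by rw [hG, mul_one]
  · -- mass
    set f : (Λ → ℝ) → ℝ := fun ω => ‖gg e H ω z o x‖ ^ 2 with hf
    have hfm : Measurable f := (hgc.norm.pow 2).measurable
    have hf0 : ∀ ω, 0 ≤ f ω := fun ω => by rw [hf]; positivity
    have hfb : ∀ ω, |f ω| ≤ (1 / z.im) ^ 2 := fun ω => by
      rw [abs_of_nonneg (hf0 ω)]; exact hgb2 ω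
    set F : (Λ → ℝ) → ℝ := Nr.indicator f with hF
    have hFm : Measurable F := hfm.indicator hNm
    have hFb : ∀ ω, |F ω| ≤ (1 / z.im) ^ 2 := fun ω => by
      rw [hF, Set.indicator_apply]
      split_ifs
      · exact hfb ω
      · rw [abs_zero]; positivity
    have hinner : ∀ ω, ∫ v, f (Function.update ω x v) ∂(unif c) ≤
        2 * ∫ v, F (Function.update ω x v) ∂(unif c) := by
      intro ω
      set K : ℝ := (‖gg e H ω z o x‖ / ‖qp_G e H o x z ω‖) ^ 2 with hK
      have hK0 : 0 ≤ K := by rw [hK]; positivity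
      have hfu : ∀ v, f (Function.update ω x v) = K * (‖((clp c v : ℝ) : ℂ) - ζ ω‖ ^ 2)⁻¹ := by
        intro v
        rw [hf]; dsimp only
        rw [qp_g_upd M o x hz0 ω v, div_pow]
        rfl
      have h1 : ∫ v, f (Function.update ω x v) ∂(unif c) =
          K * ∫ v : ℝ, (‖(v : ℂ) - ζ ω‖ ^ 2)⁻¹ ∂(unif c) := by
        rw [← integral_const_mul]
        refine integral_congr_ae ?_
        filter_upwards [ae_unif c] with v hv
        rw [hfu, clp_of_mem hv]
      set N : Set ℝ := {v : ℝ | ‖(v : ℂ) - ζ ω‖ ≤ 5 * rho c (ζ ω)} with hN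
      have hNm' : MeasurableSet N := (isClosed_le (by fun_prop) continuous_const).measurableSet
      have hne : ∀ᵐ v ∂(unif c), v ≠ c := by
        have h2 : unif c {c} = 0 := by
          unfold unif
          rw [Measure.smul_apply, smul_eq_mul]
          have : (volume.restrict (Icc (-c) c)) {c} = 0 := by
            refine le_antisymm ((Measure.restrict_apply_le _ _).trans ?_) (zero_le)
            rw [Real.volume_singleton]
          rw [this, mul_zero]
        rw [ae_iff]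
        simpa using h2
      have h2 : ∫ v, F (Function.update ω x v) ∂(unif c) =
          K * ∫ v in N, (‖(v : ℂ) - ζ ω‖ ^ 2)⁻¹ ∂(unif c) := by
        rw [← integral_const_mul, ← integral_indicator hNm']
        refine integral_congr_ae ?_
        filter_upwards [ae_unif c, hne] with v hv hv2
        have h3 : Function.update ω x v ∈ Nr ↔ v ∈ N := by
          rw [hNr, mem_ofPred_eq, Function.update_self, hζu, hρu]
          constructor
          · exact fun h => h.2
          · exact fun h => ⟨⟨hv.1, lt_of_le_of_ne hv.2 hv2⟩, h⟩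
        rw [hF]
        by_cases h4 : v ∈ N
        · rw [Set.indicator_of_mem (h3.mpr h4), Set.indicator_of_mem h4, hfu, clp_of_mem hv]
        · rw [Set.indicator_of_notMem (fun h => h4 (h3.mp h)), Set.indicator_of_notMem h4]
      rw [h1, h2]
      have h5 := mass_near hc (ζ := ζ ω) (hρ0 ω)
      calc K * ∫ v : ℝ, (‖(v : ℂ) - ζ ω‖ ^ 2)⁻¹ ∂(unif c)
          ≤ K * (2 * ∫ v in N, (‖(v : ℂ) - ζ ω‖ ^ 2)⁻¹ ∂(unif c)) :=
            mul_le_mul_of_nonneg_left h5 hK0
        _ = _ := by ring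
    have hmain : ∫ ω, f ω ∂(PP Λ c) ≤ 2 * ∫ ω, F ω ∂(PP Λ c) := by
      rw [← integral_resample hc x hfm hfb, ← integral_resample hc x hFm hFb,
        ← integral_const_mul]
      refine integral_mono_of_nonneg (ae_of_all _ fun ω => integral_nonneg fun v => hf0 _)
        ((qp_integrable hc x hFm hFb).const_mul 2) (ae_of_all _ fun ω => hinner ω)
    have hNrU : Nr = ⋃ k ∈ Finset.range (n + 1), (W k ∩ Nr) := by
      ext ω
      simp only [mem_iUnion, Finset.mem_range, mem_inter_iff, exists_prop]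
      constructor
      · intro h
        obtain ⟨k, hk, hkW⟩ := hWex ω
        exact ⟨k, by omega, hkW, h⟩
      · rintro ⟨k, -, -, h⟩
        exact h
    have hfint : Integrable f (PP Λ c) :=
      Integrable.of_bound (C := (1 / z.im) ^ 2) hfm.aestronglyMeasurable
        (ae_of_all _ fun ω => by rw [Real.norm_eq_abs]; exact hfb ω)
    have hsum : ∫ ω, F ω ∂(PP Λ c) =
        ∑ k ∈ Finset.range (n + 1), ∫ ω in W k ∩ Nr, f ω ∂(PP Λ c) := by
      rw [hF, integral_indicator hNm]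
      conv_lhs => rw [hNrU]
      rw [integral_biUnion_finset]
      · intro k _
        exact (hWm k).inter hNm
      · intro j _ k _ hjk
        exact (hWd' j k hjk).mono inter_subset_left inter_subset_left
      · intro k _
        exact hfint.integrableOn
    rw [hsum] at hmain
    exact hmain
  · -- probability
    intro k hk
    have h10 : (0 : ℝ) ≤ 10 / 2 ^ k := by positivity
    rcases Nat.eq_zero_or_pos k with hk0 | hk0
    · subst hk0
      have h1 : (PP Λ c).real (W 0 ∩ Nr) ≤ (PP Λ c).real (W 0) :=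
        measureReal_mono inter_subset_left
      have h2 : 0 ≤ (PP Λ c).real (W 0) := measureReal_nonneg
      rw [pow_zero, div_one]
      linarith
    · set F : (Λ → ℝ) → ℝ := (W k ∩ Nr).indicator 1 with hF
      have hSm : MeasurableSet (W k ∩ Nr) := (hWm k).inter hNm
      have hFm : Measurable F := measurable_one.indicator hSm
      have hFb : ∀ ω, |F ω| ≤ 1 := fun ω => by
        rw [hF, Set.indicator_apply]
        split_ifs <;> simp
      have h1 : (PP Λ c).real (W k ∩ Nr) =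
          ∫ ω, (∫ v, F (Function.update ω x v) ∂(unif c)) ∂(PP Λ c) := by
        rw [integral_resample hc x hFm hFb, hF, integral_indicator_one hSm]
      have h2 : ∀ ω, ∫ v, F (Function.update ω x v) ∂(unif c) ≤
          (W k).indicator (fun _ => (10 : ℝ) / 2 ^ k) ω := by
        intro ω
        by_cases hω : ω ∈ W k
        · rw [Set.indicator_of_mem hω]
          set N : Set ℝ := {v : ℝ | ‖(v : ℂ) - ζ ω‖ ≤ 5 * rho c (ζ ω)} with hN
          have hNm' : MeasurableSet N := (isClosed_le (by fun_prop) continuous_const).measurableSet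
          calc ∫ v, F (Function.update ω x v) ∂(unif c)
              ≤ ∫ v, N.indicator 1 v ∂(unif c) := by
                refine integral_mono_of_nonneg (ae_of_all _ fun v => ?_) ?_
                  (ae_of_all _ fun v => ?_)
                · rw [hF]
                  exact Set.indicator_nonneg (fun _ _ => zero_le_one) _
                · exact (integrable_const (1 : ℝ)).indicator hNm'
                · dsimp only
                  rw [hF]
                  by_cases h3 : Function.update ω x v ∈ W k ∩ Nr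
                  · have h4 : v ∈ N := by
                      have h5 := h3.2.2
                      rw [Function.update_self, hζu, hρu] at h5
                      exact h5
                    rw [Set.indicator_of_mem h3, Set.indicator_of_mem h4]
                    exact le_rfl
                  · rw [Set.indicator_of_notMem h3]
                    exact Set.indicator_nonneg (fun _ _ => zero_le_one) _
            _ = (unif c).real N := integral_indicator_one hNm'
            _ ≤ 5 * rho c (ζ ω) / c := unif_near hc _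
            _ ≤ 10 / 2 ^ k := by
                obtain ⟨j, rfl⟩ : ∃ j, k = j + 1 := ⟨k - 1, by omega⟩
                have h3 : ρ ω < len c j := hω.2 j (Nat.lt_succ_self j)
                unfold len at h3
                rw [div_le_iff₀ hc, pow_succ]
                have h4 : 10 / (2 ^ j * 2) * c = 5 * (c / 2 ^ j) := by
                  field_simp; ring
                rw [h4]
                have h5 : rho c (ζ ω) = ρ ω := rfl
                rw [h5]
                linarith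
        · rw [Set.indicator_of_notMem hω]
          have h3 : ∀ v, F (Function.update ω x v) = 0 := fun v => by
            rw [hF]
            exact Set.indicator_of_notMem (fun h => hω ((hWu k ω v).mp h.1)) _
          simp [h3]
      have h3 : (∫ ω, (W k).indicator (fun _ => (10 : ℝ) / 2 ^ k) ω ∂(PP Λ c)) =
          10 / 2 ^ k * (PP Λ c).real (W k) := by
        rw [integral_indicator (hWm k), setIntegral_const, smul_eq_mul, mul_comm]
      rw [h1, ← h3]
      refine integral_mono_of_nonneg (ae_of_all _ fun ω => integral_nonneg fun v => ?_) ?_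
        (ae_of_all _ h2)
      · dsimp only
        rw [hF]
        exact Set.indicator_nonneg (fun _ _ => zero_le_one) _
      · exact (integrable_const _).indicator (hWm k)

end Pool.Agent.Lib.MP_562b47_mp.QV
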