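import Mathlib
import Pool.Agent.Lib.MP_562b47_mp.QP.Flip
import Pool.Agent.Lib.MP_562b47_mp.QP.Green

/-!
Energy-local Pólya criterion (MP_562b47_mp), module Up: stability of the wave function under digit
flips at one site, as in `QP.Up`, for all `z` with `z.im ≥ len c n`.
-/

open MeasureTheory Set Filter Topology Complex
open scoped Real ENNReal NNReal InnerProductSpace

namespace Pool.Agent.Lib.MP_562b47_mp.QV

open Pool.Agent.Lib.MP_562b47_mp.QP

private lemma qp_h_diff {τ y : ℝ} (hτ : 0 < τ) (hy : 0 < y) :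
    min (y / (4 * τ)) (2 * τ / y) ≤ 9 / 2 * (2 * y / (2 * y + 3 * τ) - y / (y + 3 * τ)) := by
  have e : 2 * y / (2 * y + 3 * τ) - y / (y + 3 * τ) =
      3 * τ * y / ((2 * y + 3 * τ) * (y + 3 * τ)) := by
    rw [div_sub_div _ _ (by positivity) (by positivity)]
    congr 1
    ring
  rw [e]
  rcases le_or_gt y (3 * τ) with h | h
  · refine (min_le_left _ _).trans ?_
    rw [← mul_div_assoc, div_le_div_iff₀ (by positivity) (by positivity)]
    have h1 : (2 * y + 3 * τ) * (y + 3 * τ) ≤ (9 * τ) * (6 * τ) :=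
      mul_le_mul (by linarith) (by linarith) (by positivity) (by positivity)
    nlinarith [mul_le_mul_of_nonneg_left h1 hy.le]
  · refine (min_le_right _ _).trans ?_
    rw [← mul_div_assoc, div_le_div_iff₀ (by positivity) (by positivity)]
    have h1 : (2 * y + 3 * τ) * (y + 3 * τ) ≤ (3 * y) * (2 * y) :=
      mul_le_mul (by linarith) (by linarith) (by positivity) (by positivity)
    nlinarith [mul_le_mul_of_nonneg_left h1 hτ.le, mul_pos hτ hy, mul_pos (mul_pos hτ hy) hy]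

theorem geo_sum {c τ : ℝ} (hc : 0 < c) (hτ : 0 < τ) (K : ℕ) :
    ∑ k ∈ Finset.range K, min (len c k / (4 * τ)) (2 * τ / len c k) ≤ 5 := by
  set u : ℕ → ℝ := fun k => 2 * len c k / (2 * len c k + 3 * τ) with hu
  have hlen : ∀ k, 0 < len c k := fun k => len_pos hc k
  have h1 : ∀ k ∈ Finset.range K, min (len c k / (4 * τ)) (2 * τ / len c k) ≤
      9 / 2 * (u k - u (k + 1)) := by
    intro k _
    have h2 : u (k + 1) = len c k / (len c k + 3 * τ) := by
      simp only [hu, len_succ]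
      congr 1 <;> ring
    rw [h2]
    exact qp_h_diff hτ (hlen k)
  have h3 : ∑ k ∈ Finset.range K, (u k - u (k + 1)) = u 0 - u K := Finset.sum_range_sub' u K
  have h4 : u 0 ≤ 1 := by
    simp only [hu]
    have := hlen 0
    rw [div_le_one (by positivity)]
    linarith
  have h5 : 0 ≤ u K := by
    simp only [hu]
    have := hlen K
    positivity
  calc _ ≤ ∑ k ∈ Finset.range K, 9 / 2 * (u k - u (k + 1)) := Finset.sum_le_sum h1
    _ = 9 / 2 * (u 0 - u K) := by rw [← Finset.mul_sum, h3]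
    _ ≤ 5 := by linarith

private lemma qp_real {τ η a a' b b' l δ : ℝ} (hτ : 0 < τ) (hη : 0 < η) (hb : 0 < b)
    (hb' : 0 < b') (h1 : τ * b ≤ 1) (h2 : τ * b' ≤ 1) (h3 : a * b' = a' * b) (hl : 0 ≤ l)
    (hδ : δ = 0 ∨ (δ = l ∧ l ≤ 1 / b + 1 / b')) :
    δ ^ 2 / 4 * a ^ 2 * (τ * b' ^ 2 / η) ≤
      min (l ^ 2 / (4 * τ)) (2 * τ) / (2 * η) * (a ^ 2 + a' ^ 2) := by
  rcases hδ with rfl | ⟨rfl, hδ⟩
  · have : 0 ≤ min (l ^ 2 / (4 * τ)) (2 * τ) := le_min (by positivity) (by positivity)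
    have h4 : 0 ≤ min (l ^ 2 / (4 * τ)) (2 * τ) / (2 * η) * (a ^ 2 + a' ^ 2) := by positivity
    simpa using h4
  · have e1 : a ^ 2 * b' ^ 2 = a' ^ 2 * b ^ 2 := by
      have : (a * b') ^ 2 = (a' * b) ^ 2 := by rw [h3]
      nlinarith
    have f1 : (τ * b) ^ 2 ≤ 1 := by
      have : 0 ≤ τ * b := by positivity
      nlinarith
    have f2 : (τ * b') ^ 2 ≤ 1 := by
      have : 0 ≤ τ * b' := by positivity
      nlinarith
    rcases le_total (δ ^ 2 / (4 * τ)) (2 * τ) with h | h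
    · rw [min_eq_left h]
      have g1 : 2 * τ ^ 2 * (a ^ 2 * b' ^ 2) ≤ a ^ 2 + a' ^ 2 := by
        have g2 : τ ^ 2 * (a ^ 2 * b' ^ 2) ≤ a ^ 2 := by
          calc τ ^ 2 * (a ^ 2 * b' ^ 2) = a ^ 2 * (τ * b') ^ 2 := by ring
            _ ≤ a ^ 2 * 1 := mul_le_mul_of_nonneg_left f2 (sq_nonneg a)
            _ = a ^ 2 := mul_one _
        have g3 : τ ^ 2 * (a ^ 2 * b' ^ 2) ≤ a' ^ 2 := by
          calc τ ^ 2 * (a ^ 2 * b' ^ 2) = a' ^ 2 * (τ * b) ^ 2 := by rw [e1]; ring
            _ ≤ a' ^ 2 * 1 := mul_le_mul_of_nonneg_left f1 (sq_nonneg a')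
            _ = a' ^ 2 := mul_one _
        linarith
      calc δ ^ 2 / 4 * a ^ 2 * (τ * b' ^ 2 / η) =
          δ ^ 2 / (8 * τ * η) * (2 * τ ^ 2 * (a ^ 2 * b' ^ 2)) := by field_simp; ring
        _ ≤ δ ^ 2 / (8 * τ * η) * (a ^ 2 + a' ^ 2) :=
          mul_le_mul_of_nonneg_left g1 (by positivity)
        _ = δ ^ 2 / (4 * τ) / (2 * η) * (a ^ 2 + a' ^ 2) := by field_simp; ring
    · rw [min_eq_right h]
      have hlb : δ * (b * b') ≤ b + b' := by
        have : (1 / b + 1 / b') * (b * b') = b + b' := by field_simp; ring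
        calc δ * (b * b') ≤ (1 / b + 1 / b') * (b * b') :=
              mul_le_mul_of_nonneg_right hδ (by positivity)
          _ = b + b' := this
      have g1 : δ ^ 2 * (a ^ 2 * b' ^ 2) ≤ 4 * (a ^ 2 + a' ^ 2) := by
        rcases le_or_gt (δ * b') 2 with h5 | h5
        · have h6 : (δ * b') ^ 2 ≤ 4 := by
            have : 0 ≤ δ * b' := by positivity
            nlinarith
          calc δ ^ 2 * (a ^ 2 * b' ^ 2) = a ^ 2 * (δ * b') ^ 2 := by ring
            _ ≤ a ^ 2 * 4 := mul_le_mul_of_nonneg_left h6 (sq_nonneg a)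
            _ ≤ 4 * (a ^ 2 + a' ^ 2) := by nlinarith [sq_nonneg a']
        · have h5b : δ * b ≤ 2 := by
            by_contra hcon
            push Not at hcon
            nlinarith
          have h6 : (δ * b) ^ 2 ≤ 4 := by
            have : 0 ≤ δ * b := by positivity
            nlinarith
          calc δ ^ 2 * (a ^ 2 * b' ^ 2) = a' ^ 2 * (δ * b) ^ 2 := by rw [e1]; ring
            _ ≤ a' ^ 2 * 4 := mul_le_mul_of_nonneg_left h6 (sq_nonneg a')
            _ ≤ 4 * (a ^ 2 + a' ^ 2) := by nlinarith [sq_nonneg a]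
      calc δ ^ 2 / 4 * a ^ 2 * (τ * b' ^ 2 / η) =
          τ / (4 * η) * (δ ^ 2 * (a ^ 2 * b' ^ 2)) := by field_simp
        _ ≤ τ / (4 * η) * (4 * (a ^ 2 + a' ^ 2)) :=
          mul_le_mul_of_nonneg_left g1 (by positivity)
        _ = 2 * τ / (2 * η) * (a ^ 2 + a' ^ 2) := by field_simp

variable {Λ : Type*} [DecidableEq Λ] [Countable Λ] {E : Type*} [NormedAddCommGroup E]
  [InnerProductSpace ℂ E] [CompleteSpace E] {c : ℝ} {e : Λ → E} {H : (Λ → ℝ) → (E →L[ℂ] E)}

private noncomputable def qp_tau (e : Λ → E) (H : (Λ → ℝ) → (E →L[ℂ] E)) (o y : Λ) (z : ℂ)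
    (ω : Λ → ℝ) : ℝ := (Gt e H o ω z y y).im / ‖Gt e H o ω z y y‖ ^ 2

private noncomputable def qp_m (c : ℝ) (e : Λ → E) (H : (Λ → ℝ) → (E →L[ℂ] E)) (o y : Λ) (z : ℂ)
    (k : ℕ) (ω : Λ → ℝ) : ℝ := min (len c k ^ 2 / (4 * qp_tau e H o y z ω)) (2 * qp_tau e H o y z ω)

omit [Countable Λ] in
private lemma qp_ne (M : Model c e H) (o y : Λ) {z : ℂ} (hz : 0 < z.im) (ω : Λ → ℝ) :
    Gt e H o ω z y y ≠ 0 := by
  intro h
  have := im_Gt_pos M o ω hz y
  rw [h] at this
  simp at this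

omit [Countable Λ] in
private lemma qp_tau_pos (M : Model c e H) (o y : Λ) {z : ℂ} (hz : 0 < z.im) (ω : Λ → ℝ) :
    0 < qp_tau e H o y z ω := by
  unfold qp_tau
  have h1 := im_Gt_pos M o ω hz y
  have h2 := norm_pos_iff.mpr (qp_ne M o y hz ω)
  positivity

omit [Countable Λ] in
private lemma qp_inv (M : Model c e H) (o y : Λ) {z : ℂ} (hz : 0 < z.im) (k : ℕ) (ω : Λ → ℝ) :
    (Gt e H o (sg c (y, k) ω) z y y)⁻¹ = (Gt e H o ω z y y)⁻¹ +
      ((clp c (flp c k (ω y)) - clp c (ω y) : ℝ) : ℂ) := by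
  have h := Gt_upd_mul M o ω hz y (flp c k (ω y))
  have h1 : Function.update ω y (flp c k (ω y)) = sg c (y, k) ω := rfl
  rw [h1] at h
  have hG := qp_ne M o y hz ω
  have hG' := qp_ne M o y hz (sg c (y, k) ω)
  set G := Gt e H o ω z y y
  set G' := Gt e H o (sg c (y, k) ω) z y y
  set D : ℂ := ((clp c (flp c k (ω y)) - clp c (ω y) : ℝ) : ℂ)
  have h2 : G'⁻¹ * (G' * (1 + D * G)) = G'⁻¹ * G := by rw [h]
  rw [← mul_assoc, inv_mul_cancel₀ hG', one_mul] at h2
  calc G'⁻¹ = G'⁻¹ * G * G⁻¹ := by rw [mul_assoc, mul_inv_cancel₀ hG, mul_one]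
    _ = (1 + D * G) * G⁻¹ := by rw [← h2]
    _ = G⁻¹ + D := by rw [add_mul, one_mul, mul_assoc, mul_inv_cancel₀ hG, mul_one]

omit [Countable Λ] in
private lemma qp_tau_inv (M : Model c e H) (o y : Λ) {z : ℂ} (hz : 0 < z.im) (k : ℕ)
    (ω : Λ → ℝ) : qp_tau e H o y z (sg c (y, k) ω) = qp_tau e H o y z ω := by
  have h := congrArg Complex.im (qp_inv M o y hz k ω)
  rw [Complex.add_im, Complex.ofReal_im, add_zero, Complex.inv_im, Complex.inv_im,
    Complex.normSq_eq_norm_sq, Complex.normSq_eq_norm_sq, neg_div, neg_div] at h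
  unfold qp_tau
  linarith

omit [Countable Λ] in
private lemma qp_m_inv (M : Model c e H) (o y : Λ) {z : ℂ} (hz : 0 < z.im) (k : ℕ)
    (ω : Λ → ℝ) : qp_m c e H o y z k (sg c (y, k) ω) = qp_m c e H o y z k ω := by
  unfold qp_m
  rw [qp_tau_inv M o y hz k ω]

omit [Countable Λ] in
private lemma qp_m_nonneg (M : Model c e H) (o y : Λ) {z : ℂ} (hz : 0 < z.im) (k : ℕ)
    (ω : Λ → ℝ) : 0 ≤ qp_m c e H o y z k ω := by
  have := qp_tau_pos M o y hz ω
  unfold qp_m
  exact le_min (by positivity) (by positivity)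

omit [Countable Λ] in
private lemma qp_m_le (M : Model c e H) (o y : Λ) {z : ℂ} (hz : 0 < z.im) (k : ℕ)
    (ω : Λ → ℝ) : qp_m c e H o y z k ω ≤ len c k := by
  have h1 := qp_tau_pos M o y hz ω
  have h2 := len_pos M.hc k
  unfold qp_m
  set t := qp_tau e H o y z ω
  rcases le_or_gt (2 * t) (len c k) with h | h
  · exact (min_le_right _ _).trans h
  · refine (min_le_left _ _).trans ?_
    rw [div_le_iff₀ (by positivity)]
    nlinarith

omit [Countable Λ] in
private lemma qp_pt (M : Model c e H) (o y : Λ) {z : ℂ} (hz : 0 < z.im) (B : Finset Λ) (k : ℕ)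
    (ω : Λ → ℝ) :
    ∑ x ∈ B, ‖od (sg c) (y, k) (fun ω => gg e H ω z o x) ω‖ ^ 2 ≤
      qp_m c e H o y z k ω / (2 * z.im) *
        (‖gg e H ω z o y‖ ^ 2 + ‖gg e H (sg c (y, k) ω) z o y‖ ^ 2) := by
  have hτ := qp_tau_pos M o y hz ω
  have hG := qp_ne M o y hz ω
  have hG' := qp_ne M o y hz (sg c (y, k) ω)
  have hb := norm_pos_iff.mpr hG
  have hb' := norm_pos_iff.mpr hG'
  have hl := len_pos M.hc k
  set τ := qp_tau e H o y z ω with hτdef
  set D : ℝ := clp c (flp c k (ω y)) - clp c (ω y) with hD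
  have him : (Gt e H o ω z y y).im = τ * ‖Gt e H o ω z y y‖ ^ 2 := by
    rw [hτdef]
    unfold qp_tau
    field_simp
  have him' : (Gt e H o (sg c (y, k) ω) z y y).im = τ * ‖Gt e H o (sg c (y, k) ω) z y y‖ ^ 2 := by
    rw [hτdef, ← qp_tau_inv M o y hz k ω]
    unfold qp_tau
    field_simp
  have htb : τ * ‖Gt e H o ω z y y‖ ≤ 1 := by
    have h1 : (Gt e H o ω z y y).im ≤ ‖Gt e H o ω z y y‖ :=
      (le_abs_self _).trans (Complex.abs_im_le_norm _)
    rw [him, pow_two, ← mul_assoc] at h1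
    exact le_of_mul_le_mul_right (by linarith) hb
  have htb' : τ * ‖Gt e H o (sg c (y, k) ω) z y y‖ ≤ 1 := by
    have h1 : (Gt e H o (sg c (y, k) ω) z y y).im ≤ ‖Gt e H o (sg c (y, k) ω) z y y‖ :=
      (le_abs_self _).trans (Complex.abs_im_le_norm _)
    rw [him', pow_two, ← mul_assoc] at h1
    exact le_of_mul_le_mul_right (by linarith) hb'
  have hcross : ‖gg e H ω z o y‖ * ‖Gt e H o (sg c (y, k) ω) z y y‖ =
      ‖gg e H (sg c (y, k) ω) z o y‖ * ‖Gt e H o ω z y y‖ := by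
    have h1 := Gt_upd_mul M o ω hz y (flp c k (ω y))
    have h2 := gg_upd_mul M o ω hz y (flp c k (ω y))
    have h3 : Function.update ω y (flp c k (ω y)) = sg c (y, k) ω := rfl
    rw [h3] at h1 h2
    rw [← norm_mul, ← norm_mul]
    congr 1
    rw [← h2]
    calc _ = gg e H (sg c (y, k) ω) z o y * (Gt e H o (sg c (y, k) ω) z y y *
          (1 + ((clp c (flp c k (ω y)) - clp c (ω y) : ℝ) : ℂ) * Gt e H o ω z y y)) := by ring
      _ = _ := by rw [h1]
  have hDle : |D| ≤ 1 / ‖Gt e H o ω z y y‖ + 1 / ‖Gt e H o (sg c (y, k) ω) z y y‖ := by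
    have h1 := qp_inv M o y hz k ω
    have h2 : ((D : ℝ) : ℂ) = (Gt e H o (sg c (y, k) ω) z y y)⁻¹ - (Gt e H o ω z y y)⁻¹ := by
      rw [h1]
      ring
    have h3 : |D| = ‖((D : ℝ) : ℂ)‖ := by rw [Complex.norm_real, Real.norm_eq_abs]
    rw [h3, h2]
    refine (norm_sub_le _ _).trans ?_
    rw [norm_inv, norm_inv, one_div, one_div, add_comm]
  have hDval : |D| = 0 ∨ (|D| = len c k ∧ len c k ≤
      1 / ‖Gt e H o ω z y y‖ + 1 / ‖Gt e H o (sg c (y, k) ω) z y y‖) := by
    have h1 : D = sn c (y, k) ω * len c k := clp_sg M.hc (y, k) ω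
    by_cases hmem : ω y ∈ Ico (-c) c
    · right
      have h2 : |sn c (y, k) ω| = 1 := abs_sgn k hmem
      have h3 : |D| = len c k := by rw [h1, abs_mul, h2, one_mul, abs_of_pos hl]
      exact ⟨h3, by rw [← h3]; exact hDle⟩
    · left
      have h2 : sn c (y, k) ω = 0 := sgn_of_notMem k hmem
      rw [h1, h2, zero_mul, abs_zero]
  have hward := ward M o (sg c (y, k) ω) hz y B
  have hward2 : ∑ x ∈ B, ‖Gt e H o (sg c (y, k) ω) z y x‖ ^ 2 ≤
      τ * ‖Gt e H o (sg c (y, k) ω) z y y‖ ^ 2 / z.im := by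
    rw [le_div_iff₀ hz, ← him']
    linarith
  have hterm : ∀ x ∈ B, ‖od (sg c) (y, k) (fun ω => gg e H ω z o x) ω‖ ^ 2 =
      |D| ^ 2 / 4 * ‖gg e H ω z o y‖ ^ 2 * ‖Gt e H o (sg c (y, k) ω) z y x‖ ^ 2 := by
    intro x _
    have h1 := gg_upd M o ω hz x y (flp c k (ω y))
    have h3 : Function.update ω y (flp c k (ω y)) = sg c (y, k) ω := rfl
    rw [h3] at h1
    have h4 : od (sg c) (y, k) (fun ω => gg e H ω z o x) ω =
        ((D : ℝ) : ℂ) * gg e H ω z o y * Gt e H o (sg c (y, k) ω) z y x / 2 := by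
      unfold od
      simp only
      rw [← neg_sub, h1]
      ring
    rw [h4, norm_div, norm_mul, norm_mul, Complex.norm_real, Real.norm_eq_abs]
    simp only [Complex.norm_ofNat]
    ring
  rw [Finset.sum_congr rfl hterm, ← Finset.mul_sum]
  calc |D| ^ 2 / 4 * ‖gg e H ω z o y‖ ^ 2 * ∑ x ∈ B, ‖Gt e H o (sg c (y, k) ω) z y x‖ ^ 2 ≤
      |D| ^ 2 / 4 * ‖gg e H ω z o y‖ ^ 2 * (τ * ‖Gt e H o (sg c (y, k) ω) z y y‖ ^ 2 / z.im) :=
        mul_le_mul_of_nonneg_left hward2 (by positivity)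
    _ ≤ _ := qp_real hτ hz hb hb' htb htb' hcross hl.le hDval

private lemma qp_meas_gg (M : Model c e H) (o x : Λ) {z : ℂ} (hz : 0 < z.im) :
    Measurable fun ω : Λ → ℝ => gg e H ω z o x :=
  (M.continuous_gg continuous_id continuous_const (fun _ => hz) o x).measurable

private lemma qp_meas_m (M : Model c e H) (o y : Λ) {z : ℂ} (hz : 0 < z.im) (k : ℕ) :
    Measurable (qp_m c e H o y z k) := by
  have h1 : Measurable fun ω : Λ → ℝ => Gt e H o ω z y y :=
    (continuous_Gt M o continuous_id continuous_const (fun _ => hz) y y).measurable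
  have h2 : Measurable (qp_tau e H o y z) := by
    unfold qp_tau
    exact (Complex.measurable_im.comp h1).div (h1.norm.pow_const 2)
  unfold qp_m
  exact (measurable_const.div (h2.const_mul 4)).min (h2.const_mul 2)

omit [Countable Λ] in
private lemma qp_gg_le (M : Model c e H) (o y : Λ) {z : ℂ} (hz : 0 < z.im) (ω : Λ → ℝ) :
    ‖gg e H ω z o y‖ ^ 2 ≤ 1 / z.im := by
  have h := ward_gg M o ω hz {y}
  rw [Finset.sum_singleton] at h
  rw [le_div_iff₀ hz]
  linarith

theorem up_main (M : Model c e H) (o y : Λ) {z : ℂ} {n : ℕ} (hz : len c n ≤ z.im)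
    (B : Finset Λ) (K : ℕ) :
    ∑ k ∈ Finset.range K, min ((2:ℝ) ^ k / 2 ^ n) 1 * ∑ x ∈ B,
        nn (PP Λ c) (od (sg c) (y, k) (fun ω => gg e H ω z o x))
      ≤ 5 * nn (PP Λ c) (fun ω => gg e H ω z o y) := by
  have hc := M.hc
  have hz0 : 0 < z.im := (len_pos hc n).trans_le hz
  have hprob := PP_prob Λ hc
  have hfl := flips_sg (Λ := Λ) hc
  set A : (Λ → ℝ) → ℝ := fun ω => ‖gg e H ω z o y‖ ^ 2 with hA
  have hAm : Measurable A := (qp_meas_gg M o y hz0).norm.pow_const 2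
  have hA0 : ∀ ω, 0 ≤ A ω := fun ω => by simp only [hA]; positivity
  have hAle : ∀ ω, A ω ≤ 1 / z.im := fun ω => qp_gg_le M o y hz0 ω
  have hσm : ∀ k, Measurable (sg c (y, k) : (Λ → ℝ) → (Λ → ℝ)) := fun k => (hfl.mp (y, k)).measurable
  have hmAi : ∀ k, Integrable (fun ω => qp_m c e H o y z k ω * A ω) (PP Λ c) := by
    intro k
    refine Integrable.of_bound (C := len c k * (1 / z.im))
      ((qp_meas_m M o y hz0 k).mul hAm).aestronglyMeasurable (ae_of_all _ fun ω => ?_)
    rw [Real.norm_eq_abs, abs_of_nonneg (mul_nonneg (qp_m_nonneg M o y hz0 k ω) (hA0 ω))]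
    exact mul_le_mul (qp_m_le M o y hz0 k ω) (hAle ω) (hA0 ω) (len_pos hc k).le
  -- one level
  have hk : ∀ k, ∑ x ∈ B, nn (PP Λ c) (od (sg c) (y, k) (fun ω => gg e H ω z o x)) ≤
      1 / z.im * ∫ ω, qp_m c e H o y z k ω * A ω ∂(PP Λ c) := by
    intro k
    have hAσm : Measurable fun ω => A (sg c (y, k) ω) := hAm.comp (hσm k)
    have hmAσi : Integrable (fun ω => qp_m c e H o y z k ω * A (sg c (y, k) ω)) (PP Λ c) := by
      refine Integrable.of_bound (C := len c k * (1 / z.im))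
        ((qp_meas_m M o y hz0 k).mul hAσm).aestronglyMeasurable (ae_of_all _ fun ω => ?_)
      rw [Real.norm_eq_abs, abs_of_nonneg (mul_nonneg (qp_m_nonneg M o y hz0 k ω) (hA0 _))]
      exact mul_le_mul (qp_m_le M o y hz0 k ω) (hAle _) (hA0 _) (len_pos hc k).le
    have hod : ∀ x, Integrable (fun ω => ‖od (sg c) (y, k) (fun ω => gg e H ω z o x) ω‖ ^ 2)
        (PP Λ c) := by
      intro x
      have hm1 := qp_meas_gg M o x hz0
      have hm2 : Measurable fun ω : Λ → ℝ => gg e H (sg c (y, k) ω) z o x := hm1.comp (hσm k)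
      have hm3 : Measurable (od (sg c) (y, k) (fun ω => gg e H ω z o x)) := by
        unfold od
        exact (hm1.sub hm2).div_const 2
      refine Integrable.of_bound (C := 1 / z.im) (hm3.norm.pow_const 2).aestronglyMeasurable
        (ae_of_all _ fun ω => ?_)
      rw [Real.norm_eq_abs, abs_of_nonneg (by positivity)]
      have h1 := qp_gg_le M o x hz0 ω
      have h2 := qp_gg_le M o x hz0 (sg c (y, k) ω)
      unfold od
      simp only
      rw [norm_div, Complex.norm_ofNat]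
      have h3 := norm_sub_le (gg e H ω z o x) (gg e H (sg c (y, k) ω) z o x)
      have h4 := norm_nonneg (gg e H ω z o x - gg e H (sg c (y, k) ω) z o x)
      have h5 := norm_nonneg (gg e H ω z o x)
      have h6 := norm_nonneg (gg e H (sg c (y, k) ω) z o x)
      nlinarith [sq_nonneg (‖gg e H ω z o x‖ - ‖gg e H (sg c (y, k) ω) z o x‖)]
    have h1 : ∑ x ∈ B, nn (PP Λ c) (od (sg c) (y, k) (fun ω => gg e H ω z o x)) =
        ∫ ω, ∑ x ∈ B, ‖od (sg c) (y, k) (fun ω => gg e H ω z o x) ω‖ ^ 2 ∂(PP Λ c) := by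
      unfold nn
      rw [integral_finsetSum _ (fun x _ => hod x)]
    have h2 : ∫ ω, qp_m c e H o y z k ω * A (sg c (y, k) ω) ∂(PP Λ c) =
        ∫ ω, qp_m c e H o y z k ω * A ω ∂(PP Λ c) := by
      have h3 : (fun ω => qp_m c e H o y z k ω * A (sg c (y, k) ω)) =
          fun ω => (fun ω' => qp_m c e H o y z k ω' * A ω') (sg c (y, k) ω) := by
        funext ω
        simp only
        rw [qp_m_inv M o y hz0 k ω]
      rw [h3]
      have h4 := integral_map (μ := PP Λ c) (hσm k).aemeasurable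
        (f := fun ω' => qp_m c e H o y z k ω' * A ω')
        ((qp_meas_m M o y hz0 k).mul hAm).aestronglyMeasurable
      rw [← h4, (hfl.mp (y, k)).map_eq]
    rw [h1]
    calc ∫ ω, ∑ x ∈ B, ‖od (sg c) (y, k) (fun ω => gg e H ω z o x) ω‖ ^ 2 ∂(PP Λ c) ≤
        ∫ ω, (1 / (2 * z.im)) * (qp_m c e H o y z k ω * A ω +
          qp_m c e H o y z k ω * A (sg c (y, k) ω)) ∂(PP Λ c) := by
          apply integral_mono (integrable_finsetSum _ fun x _ => hod x)
            ((hmAi k).add hmAσi |>.const_mul _)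
          intro ω
          refine (qp_pt M o y hz0 B k ω).trans (le_of_eq ?_)
          simp only [hA, Pi.add_apply]
          ring
      _ = 1 / z.im * ∫ ω, qp_m c e H o y z k ω * A ω ∂(PP Λ c) := by
          rw [integral_const_mul, integral_add (hmAi k) hmAσi, h2]
          field_simp
          ring
  -- sum over the levels
  have hterm : ∀ k ∈ Finset.range K, min ((2:ℝ) ^ k / 2 ^ n) 1 * ∑ x ∈ B,
      nn (PP Λ c) (od (sg c) (y, k) (fun ω => gg e H ω z o x)) ≤
      ∫ ω, min (len c k / (4 * qp_tau e H o y z ω)) (2 * qp_tau e H o y z ω / len c k) * A ω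
        ∂(PP Λ c) := by
    intro k _
    have hlk := len_pos hc k
    have hnn : 0 ≤ ∑ x ∈ B, nn (PP Λ c) (od (sg c) (y, k) (fun ω => gg e H ω z o x)) := by
      apply Finset.sum_nonneg
      intro x _
      unfold nn
      apply integral_nonneg
      intro ω
      positivity
    have hrate : (2:ℝ) ^ k / 2 ^ n ≤ z.im / len c k := by
      have h1 : (2:ℝ) ^ k / 2 ^ n = len c n / len c k := by
        unfold len
        field_simp
      rw [h1]
      exact div_le_div_of_nonneg_right hz hlk.le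
    calc _ ≤ z.im / len c k * ∑ x ∈ B,
          nn (PP Λ c) (od (sg c) (y, k) (fun ω => gg e H ω z o x)) :=
          mul_le_mul_of_nonneg_right ((min_le_left _ _).trans hrate) hnn
      _ ≤ z.im / len c k * (1 / z.im * ∫ ω, qp_m c e H o y z k ω * A ω ∂(PP Λ c)) :=
          mul_le_mul_of_nonneg_left (hk k) (by positivity)
      _ = 1 / len c k * ∫ ω, qp_m c e H o y z k ω * A ω ∂(PP Λ c) := by field_simp
      _ = ∫ ω, 1 / len c k * (qp_m c e H o y z k ω * A ω) ∂(PP Λ c) := by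
          rw [integral_const_mul]
      _ = _ := by
          congr 1
          funext ω
          have h1 : min (len c k / (4 * qp_tau e H o y z ω)) (2 * qp_tau e H o y z ω / len c k) =
              qp_m c e H o y z k ω / len c k := by
            unfold qp_m
            rw [← min_div_div_right hlk.le]
            congr 1
            have := qp_tau_pos M o y hz0 ω
            field_simp
          rw [h1]
          ring
  refine (Finset.sum_le_sum hterm).trans ?_
  have hint : ∀ k, Integrable (fun ω => min (len c k / (4 * qp_tau e H o y z ω))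
      (2 * qp_tau e H o y z ω / len c k) * A ω) (PP Λ c) := by
    intro k
    have hlk := len_pos hc k
    have h1 : (fun ω => min (len c k / (4 * qp_tau e H o y z ω))
        (2 * qp_tau e H o y z ω / len c k) * A ω) =
        fun ω => 1 / len c k * (qp_m c e H o y z k ω * A ω) := by
      funext ω
      have h1 : min (len c k / (4 * qp_tau e H o y z ω)) (2 * qp_tau e H o y z ω / len c k) =
          qp_m c e H o y z k ω / len c k := by
        unfold qp_m
        rw [← min_div_div_right hlk.le]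
        congr 1
        have := qp_tau_pos M o y hz0 ω
        field_simp
      rw [h1]
      ring
    rw [h1]
    exact (hmAi k).const_mul _
  have hAi : Integrable A (PP Λ c) := by
    refine Integrable.of_bound (C := 1 / z.im) hAm.aestronglyMeasurable (ae_of_all _ fun ω => ?_)
    rw [Real.norm_eq_abs, abs_of_nonneg (hA0 ω)]
    exact hAle ω
  rw [← integral_finsetSum _ (fun k _ => hint k)]
  have h5 : 5 * nn (PP Λ c) (fun ω => gg e H ω z o y) = ∫ ω, 5 * A ω ∂(PP Λ c) := by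
    rw [integral_const_mul]
    rfl
  rw [h5]
  apply integral_mono (integrable_finsetSum _ fun k _ => hint k) (hAi.const_mul 5)
  intro ω
  simp only
  rw [← Finset.sum_mul]
  exact mul_le_mul_of_nonneg_right (geo_sum hc (qp_tau_pos M o y hz0 ω) K) (hA0 ω)

end Pool.Agent.Lib.MP_562b47_mp.QV
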