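import Mathlib
import Pool.Agent.Lib.MP_562b47_mp.QP.Sum
import Pool.Agent.Lib.MP_562b47_mp.QV.Low
import Pool.Agent.Lib.MP_562b47_mp.QV.Up

/-!
Energy-pointwise Pólya criterion (MP_562b47_mp), module Key: the main inequality at one energy and
one scale, and the budget.
-/

open MeasureTheory Set Filter Topology Complex
open scoped Real ENNReal NNReal InnerProductSpace

namespace Pool.Agent.Lib.MP_562b47_mp.QV

open Pool.Agent.Lib.MP_562b47_mp.QP

variable {Λ : Type*} [DecidableEq Λ] [AddCommGroup Λ] [Countable Λ] {E : Type*}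
  [NormedAddCommGroup E] [InnerProductSpace ℂ E] [CompleteSpace E] {c : ℝ} {e : Λ → E}
  {H : (Λ → ℝ) → (E →L[ℂ] E)}

set_option linter.unusedSectionVars false

/-- the mass at the energy `u` -/
noncomputable def aa (c : ℝ) (e : Λ → E) (H : (Λ → ℝ) → (E →L[ℂ] E)) (u η : ℝ) : ℝ :=
  ∫ ω, (Gr e H ω (⟨u, η⟩ : ℂ) 0 0).im / ‖den e H ω (⟨u, η⟩ : ℂ) 0‖ ^ 2 ∂(PP Λ c)

/-- the mass outside of `B` at the energy `u` -/
noncomputable def oo (c : ℝ) (e : Λ → E) (H : (Λ → ℝ) → (E →L[ℂ] E)) (B : Finset Λ) (u η : ℝ) : ℝ :=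
  ∫ ω, ((Gr e H ω (⟨u, η⟩ : ℂ) 0 0).im - η * ∑ y ∈ B, ‖Gr e H ω (⟨u, η⟩ : ℂ) 0 y‖ ^ 2) ∂(PP Λ c)

/-- the noise functional of the digits at the sites of `L` -/
noncomputable def rr (c : ℝ) (e : Λ → E) (H : (Λ → ℝ) → (E →L[ℂ] E)) (L : Finset Λ) (K : ℕ) (ε : ℝ)
    (n : ℕ) (u η : ℝ) : ℝ :=
  RR (PP Λ c) (sg c) (L ×ˢ Finset.range K).toList (rate ε (n + 1)) (rate ε n)
    (fun ω => gg e H ω (⟨u, η⟩ : ℂ) 0 0)

theorem rate_mem {ε : ℝ} (hε : 0 < ε) (hε1 : ε ≤ 1) (n : ℕ) (b : Λ × ℕ) :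
    0 ≤ rate ε n b ∧ rate ε n b ≤ 1 ∧ rate ε (n + 1) b ≤ rate ε n b := by
  refine ⟨?_, ?_, ?_⟩
  · unfold rate; positivity
  · unfold rate
    calc ε * min ((2:ℝ) ^ b.2 / 2 ^ n) 1 ≤ ε * 1 := by
          gcongr
          exact min_le_right _ _
      _ ≤ 1 := by rw [mul_one]; exact hε1
  · unfold rate
    gcongr
    · norm_num
    · omega

theorem rr_nonneg (M : Model c e H) (L : Finset Λ) (K : ℕ) {ε : ℝ} (hε : 0 < ε) (hε1 : ε ≤ 1)
    (n : ℕ) (u η : ℝ) : 0 ≤ rr c e H L K ε n u η := by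
  have := PP_prob Λ M.hc
  exact RR_nonneg _ (fun b => (rate_mem hε hε1 (n + 1) b).1) (fun b => (rate_mem hε hε1 n b).2.2)
    (fun b => (rate_mem hε hε1 n b).2.1)

/-- the budget -/
theorem rr_budget (M : Model c e H) {V : Λ → (E ≃ₗᵢ[ℂ] E)} (hH : CovOp V H) (L : Finset Λ) (K : ℕ)
    {ε : ℝ} (hε : 0 < ε) (hε1 : ε ≤ 1) {h : ℕ → ℝ} (hh : ∀ n, 0 < h n) (N : ℕ) :
    (∀ n, Integrable (fun u => rr c e H L K ε n u (h n)) kap) ∧
    ∑ n ∈ Finset.range N, ∫ u, rr c e H L K ε n u (h n) ∂kap ≤ 2 := by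
  have := PP_prob Λ M.hc
  have hc := M.hc
  obtain ⟨φ, hφm, hφ1, hφ2, hφ3, hφ4⟩ := diss M hH.bdd (0:Λ)
  have hlnd : ((L ×ˢ Finset.range K).toList).Nodup := Finset.nodup_toList _
  have hFl : Flips (PP Λ c) (sg c : Λ × ℕ → (Λ → ℝ) → (Λ → ℝ)) := flips_sg hc
  have hfun : ∀ (n : ℕ) (u : ℝ), (fun ω => gg e H ω (⟨u, h n⟩ : ℂ) 0 0)
      = fun ω => lap φ (h n) u ω := fun n u => by
    funext ω
    exact hφ4 ω u _ (hh n)
  refine ⟨fun n => ?_, ?_⟩
  · unfold rr
    simp_rw [hfun]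
    exact integrable_RR_lap hFl _ hφm hφ1 (hh n) _ _
  · have h1 := budget hFl hlnd hφm hφ1 hφ2 hφ3 (η := h) hh
      (s := fun n => rate ε n) (fun n b => (rate_mem hε hε1 n b).1)
      (fun n b => (rate_mem hε hε1 n b).2.1) (fun n b => (rate_mem hε hε1 n b).2.2) N
    refine le_trans (le_of_eq ?_) h1
    refine Finset.sum_congr rfl fun n _ => ?_
    unfold rr
    simp_rw [hfun]

theorem oo_integrable (M : Model c e H) (B : Finset Λ) {u η : ℝ} (hη : 0 < η) :
    (Integrable (fun ω => (Gr e H ω (⟨u, η⟩ : ℂ) 0 0).im / ‖den e H ω (⟨u, η⟩ : ℂ) 0‖ ^ 2)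
      (PP Λ c)) ∧
    (Integrable (fun ω => (Gr e H ω (⟨u, η⟩ : ℂ) 0 0).im
      - η * ∑ y ∈ B, ‖Gr e H ω (⟨u, η⟩ : ℂ) 0 y‖ ^ 2) (PP Λ c)) ∧
    (Integrable (fun ω => η * ∑ x ∈ B, ‖gg e H ω (⟨u, η⟩ : ℂ) 0 x‖ ^ 2) (PP Λ c)) := by
  have hc := M.hc
  have := PP_prob Λ hc
  have hz : 0 < (⟨u, η⟩ : ℂ).im := hη
  refine ⟨?_, ?_, ?_⟩
  · have hc1 : Continuous (fun ω : Λ → ℝ =>
        (Gr e H ω (⟨u, η⟩ : ℂ) 0 0).im / ‖den e H ω (⟨u, η⟩ : ℂ) 0‖ ^ 2) := by
      refine Continuous.div (Complex.continuous_im.comp (M.continuous_Gr continuous_id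
        continuous_const (fun _ => hz) 0 0))
        ((M.continuous_den continuous_id continuous_const (fun _ => hz) 0).norm.pow 2) fun ω => ?_
      have := M.one_le_norm_den ω hz 0
      have h2 : 0 < ‖den e H ω (⟨u, η⟩ : ℂ) 0‖ := by linarith
      exact (pow_pos h2 2).ne'
    refine Integrable.of_bound (C := 1 / η) hc1.aestronglyMeasurable (ae_of_all _ fun ω => ?_)
    have := qps_im_le M ω hz 0
    rw [Real.norm_of_nonneg this.1]
    exact this.2
  · have hc2 : Continuous (fun ω : Λ → ℝ => (Gr e H ω (⟨u, η⟩ : ℂ) 0 0).im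
        - η * ∑ y ∈ B, ‖Gr e H ω (⟨u, η⟩ : ℂ) 0 y‖ ^ 2) := by
      refine (Complex.continuous_im.comp (M.continuous_Gr continuous_id
        continuous_const (fun _ => hz) 0 0)).sub
        (continuous_const.mul (continuous_finsetSum _ fun x _ => ?_))
      exact (M.continuous_Gr continuous_id continuous_const (fun _ => hz) 0 x).norm.pow 2
    refine Integrable.of_bound (C := 1 / η) hc2.aestronglyMeasurable (ae_of_all _ fun ω => ?_)
    have hw := ward_G M 0 ω hz B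
    have h3 : (Gr e H ω (⟨u, η⟩ : ℂ) 0 0).im ≤ 1 / η :=
      ((le_abs_self _).trans (Complex.abs_im_le_norm _)).trans (M.norm_Gr_le ω hz 0 0)
    have h4 : 0 ≤ η * ∑ y ∈ B, ‖Gr e H ω (⟨u, η⟩ : ℂ) 0 y‖ ^ 2 := by positivity
    have h5 : (⟨u, η⟩ : ℂ).im = η := rfl
    rw [h5] at hw
    rw [Real.norm_of_nonneg (by linarith)]
    linarith
  · have hc3 : Continuous (fun ω : Λ → ℝ => η * ∑ x ∈ B, ‖gg e H ω (⟨u, η⟩ : ℂ) 0 x‖ ^ 2) := by
      refine continuous_const.mul (continuous_finsetSum _ fun x _ => ?_)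
      exact (M.continuous_gg continuous_id continuous_const (fun _ => hz) 0 x).norm.pow 2
    refine Integrable.of_bound (C := 1) hc3.aestronglyMeasurable (ae_of_all _ fun ω => ?_)
    rw [Real.norm_of_nonneg (by positivity)]
    exact ward_gg M 0 ω hz B

/-- **The main inequality** at one energy and one scale. -/
theorem key (M : Model c e H) {κ : ℝ} (hκ : 0 < κ) (hκ1 : κ ≤ 1) {n K : ℕ} (hnK : n < K)
    {L B : Finset Λ} (hBL : B ⊆ L) {u η : ℝ} (hη1 : len c n ≤ η) (hη2 : η ≤ 2 * len c n)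
    (ha : κ ≤ aa c e H u η) (ho : oo c e H B u η ≤ κ / 2) :
    0 < B.card ∧ 1 / (B.card : ℝ) ≤
      20480 / ((κ / 704) ^ 2 * c * κ ^ 2) * (η * rr c e H L K ((κ / 704) ^ 2) n u η) := by
  have := PP_prob Λ M.hc
  have hc := M.hc
  set ε : ℝ := (κ / 704) ^ 2 with hεd
  have hε : 0 < ε := by positivity
  have hε1 : ε ≤ 1 := by
    rw [hεd]
    have : κ / 704 ≤ 1 := by rw [div_le_one (by norm_num)]; linarith
    exact pow_le_one₀ (by positivity) this
  have hsq : √ε = κ / 704 := by rw [hεd]; exact Real.sqrt_sq (by positivity)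
  have hlen := len_pos hc n
  have hη : 0 < η := hlen.trans_le hη1
  set z : ℂ := ⟨u, η⟩ with hzd
  have hz0 : 0 < z.im := hη
  have hzi : len c n ≤ z.im := hη1
  have hFl : Flips (PP Λ c) (sg c : Λ × ℕ → (Λ → ℝ) → (Λ → ℝ)) := flips_sg hc
  set l : List (Λ × ℕ) := (L ×ˢ Finset.range K).toList with hl
  have hlnd : l.Nodup := Finset.nodup_toList _
  have hlf : l.toFinset = L ×ˢ Finset.range K := Finset.toList_toFinset _
  have hlm : ∀ a, a ∈ l ↔ a.1 ∈ L ∧ a.2 < K := by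
    intro a
    rw [hl, Finset.mem_toList, Finset.mem_product, Finset.mem_range]
  set m : ℝ := (B.card : ℝ) with hm
  have hm0 : 0 ≤ m := Nat.cast_nonneg _
  set R : ℝ := rr c e H L K ε n u η with hRd
  have hR0 : 0 ≤ R := rr_nonneg M L K hε hε1 n u η
  set I3 : ℝ := ∫ ω, η * ∑ x ∈ B, ‖gg e H ω z 0 x‖ ^ 2 ∂(PP Λ c) with hI3
  obtain ⟨i1, i2, i3⟩ := oo_integrable M B (u := u) hη
  have hI3ge : κ / 2 ≤ I3 := by
    have h3 : aa c e H u η - oo c e H B u η ≤ I3 := by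
      unfold aa oo
      rw [hI3, ← integral_sub i1 i2]
      refine integral_mono (i1.sub i2) i3 fun ω => ?_
      simp only
      have hd := M.one_le_norm_den ω hz0 0
      rw [← hzd]
      set D := ‖den e H ω z 0‖ with hD
      have hD1 : 1 ≤ D ^ 2 := by nlinarith
      have hD0 : 0 < D ^ 2 := by linarith
      have e1 : η * ∑ x ∈ B, ‖gg e H ω z 0 x‖ ^ 2
          = (η * ∑ x ∈ B, ‖Gr e H ω z 0 x‖ ^ 2) / D ^ 2 := by
        rw [mul_div_assoc, Finset.sum_div]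
        congr 1
        refine Finset.sum_congr rfl fun x _ => ?_
        unfold gg
        rw [norm_div, div_pow]
      rw [e1]
      have h5 : η * ∑ x ∈ B, ‖Gr e H ω z 0 x‖ ^ 2 ≤ (Gr e H ω z 0 0).im := ward_G M 0 ω hz0 B
      set A := (Gr e H ω z 0 0).im
      set S := η * ∑ x ∈ B, ‖Gr e H ω z 0 x‖ ^ 2
      have h6 : (A - S) / D ^ 2 ≤ A - S := div_le_self (by linarith) hD1
      rw [sub_div] at h6
      linarith
    linarith
  have hmain : ∀ t : ℝ, 0 < t → (1 / 8) * I3 ≤ κ / 64 + t * η / 2 * R + 20 * m / (t * ε * c) := by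
    intro t ht
    have hBM : ∀ x, BM fun ω => gg e H ω z 0 x := fun x =>
      ⟨(M.continuous_gg continuous_id continuous_const (fun _ => hz0) 0 x).measurable,
        1 / z.im, fun ω => qps_gg_le M ω hz0 0 x⟩
    have hnn : ∀ X : Finset Λ, ∑ x ∈ X, nn (PP Λ c) (fun ω => gg e H ω z 0 x)
        = ∫ ω, ∑ x ∈ X, ‖gg e H ω z 0 x‖ ^ 2 ∂(PP Λ c) := by
      intro X
      unfold nn
      rw [integral_finsetSum]
      intro x _
      refine Integrable.of_bound (C := (1 / z.im) ^ 2)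
        ((M.continuous_gg continuous_id continuous_const
          (fun _ => hz0) 0 x).norm.pow 2).aestronglyMeasurable (ae_of_all _ fun ω => ?_)
      rw [Real.norm_of_nonneg (by positivity)]
      exact pow_le_pow_left₀ (norm_nonneg _) (qps_gg_le M ω hz0 0 x) 2
    set S : ℝ := ∑ y ∈ L, nn (PP Λ c) (fun ω => gg e H ω z 0 y) with hS
    have hSη : η * S ≤ 1 := by
      rw [hS, hnn, ← integral_const_mul]
      calc ∫ ω, η * ∑ x ∈ L, ‖gg e H ω z 0 x‖ ^ 2 ∂(PP Λ c) ≤ ∫ _ω, (1:ℝ) ∂(PP Λ c) := by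
            refine integral_mono (oo_integrable M L (u := u) hη).2.2 (integrable_const _)
              fun ω => ?_
            exact ward_gg M 0 ω hz0 L
        _ = 1 := by simp
    have hBS : ∑ x ∈ B, nn (PP Λ c) (fun ω => gg e H ω z 0 x) ≤ S := by
      refine Finset.sum_le_sum_of_subset_of_nonneg hBL fun x _ _ => ?_
      unfold nn
      exact integral_nonneg fun ω => by positivity
    have hlow := fun x => low_main M (0:Λ) x hzi
    choose W Nr hW1 hW2 hW3 hW4 hW5 hW6 hW7 using hlow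
    have hstab : ∑ b ∈ l.toFinset, rate ε n b * ∑ x ∈ B,
        nn (PP Λ c) (od (sg c) b (fun ω => gg e H ω z 0 x)) ≤ 5 * ε * S := by
      rw [hlf, Finset.sum_product, hS, Finset.mul_sum]
      refine Finset.sum_le_sum fun y _ => ?_
      have h1 := up_main M (0:Λ) y hzi B K
      calc ∑ k ∈ Finset.range K, rate ε n (y, k) * ∑ x ∈ B,
            nn (PP Λ c) (od (sg c) (y, k) (fun ω => gg e H ω z 0 x))
          = ε * ∑ k ∈ Finset.range K, min ((2:ℝ) ^ k / 2 ^ n) 1 * ∑ x ∈ B,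
            nn (PP Λ c) (od (sg c) (y, k) (fun ω => gg e H ω z 0 x)) := by
            rw [Finset.mul_sum]
            refine Finset.sum_congr rfl fun k _ => ?_
            unfold rate
            ring
        _ ≤ ε * (5 * nn (PP Λ c) (fun ω => gg e H ω z 0 y)) := by gcongr
        _ = 5 * ε * nn (PP Λ c) (fun ω => gg e H ω z 0 y) := by ring
    have hod : ∀ (a : Λ × ℕ) (ω : Λ → ℝ), od (sg c) a (fun ω => gg e H ω z 0 0) ω
        = ((sn c a ω * len c a.2 / 2 : ℝ) : ℂ) * gg e H ω z 0 a.1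
          * gg e H (sg c a ω) z 0 a.1 := by
      intro a ω
      have h1 := gg_upd M (0:Λ) ω hz0 (0:Λ) a.1 (flp c a.2 (ω a.1))
      rw [clp_sg hc a ω, Gt_o M (0:Λ) _ hz0] at h1
      have h2 : gg e H (sg c a ω) z 0 0 = gg e H ω z 0 0
          + -((sn c a ω * len c a.2 : ℝ) : ℂ) * gg e H ω z 0 a.1
            * gg e H (sg c a ω) z 0 a.1 := by
        unfold sg
        rw [← h1]; ring
      unfold od
      change (gg e H ω z 0 0 - gg e H (sg c a ω) z 0 0) / 2 = _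
      rw [h2]
      push_cast
      ring
    have hab := abs_main (P := PP Λ c) (σ := sg c) hFl hBL hnK hlnd hlm hc hε hε1
      (hBM 0) (g := fun x ω => gg e H ω z 0 x) hBM (sn := sn c) (abs_sn_le c)
      (fun a b hab ω => sn_sg_ne hc hab ω) hod hW1 hW2 hW3 hW4 hW5 hW6 hW7 hBS hstab ht
    rw [hsq] at hab
    have h3 := mul_le_mul_of_nonneg_left hab hη.le
    have h4 : I3 = η * ∑ x ∈ B, nn (PP Λ c) (fun ω => gg e H ω z 0 x) := by
      rw [hI3, hnn, integral_const_mul]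
    rw [h4]
    have h5 : η * (10 * (B.card : ℝ) / (t * ε * (c * len c n))) ≤ 20 * m / (t * ε * c) := by
      rw [← hm]
      have e1 : η * (10 * m / (t * ε * (c * len c n))) = (η / len c n) * (10 * m / (t * ε * c)) := by
        field_simp
      have e2 : 20 * m / (t * ε * c) = 2 * (10 * m / (t * ε * c)) := by ring
      rw [e1, e2]
      have e3 : η / len c n ≤ 2 := by
        rw [div_le_iff₀ hlen]
        exact hη2
      gcongr
    have h6 : η * (11 * (κ / 704) * S) ≤ κ / 64 := by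
      have : η * (11 * (κ / 704) * S) = κ / 64 * (η * S) := by ring
      rw [this]
      exact mul_le_of_le_one_right (by positivity) hSη
    have h7 : RR (PP Λ c) (sg c) l (rate ε (n + 1)) (rate ε n) (fun ω => gg e H ω z 0 0) = R := rfl
    rw [h7, mul_add, mul_add] at h3
    linarith
  have hcard : 0 < B.card := by
    rcases Nat.eq_zero_or_pos B.card with h0 | h0
    · exfalso
      rw [Finset.card_eq_zero] at h0
      have h1 : I3 = 0 := by
        rw [hI3, h0]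
        simp
      linarith
    · exact h0
  refine ⟨hcard, ?_⟩
  have hmpos : 0 < m := by rw [hm]; exact_mod_cast hcard
  have h1 := hmain (1280 * m / (ε * c * κ)) (by positivity)
  have h2 : 20 * m / (1280 * m / (ε * c * κ) * ε * c) = κ / 64 := by
    field_simp
    norm_num
  rw [h2] at h1
  have h3 : κ / 32 ≤ 1280 * m / (ε * c * κ) * η / 2 * R := by linarith
  rw [div_le_iff₀ hmpos]
  have h6 : (1:ℝ) = 32 / κ * (κ / 32) := by
    field_simp
  calc (1:ℝ) = 32 / κ * (κ / 32) := h6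
    _ ≤ 32 / κ * (1280 * m / (ε * c * κ) * η / 2 * R) := by gcongr
    _ = 20480 / (ε * c * κ ^ 2) * (η * R) * m := by
        field_simp
        ring

end Pool.Agent.Lib.MP_562b47_mp.QV
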