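import Mathlib
import Pool.Agent.Lib.MP_562b47_mp.QV.Key

/-!
Energy-pointwise Pólya criterion (MP_562b47_mp), module Avg: the average over the energies and the
scales.
-/

open MeasureTheory Set Filter Topology Complex
open scoped Real ENNReal NNReal InnerProductSpace

namespace Pool.Agent.Lib.MP_562b47_mp.QV

open Pool.Agent.Lib.MP_562b47_mp.QP

variable {Λ : Type*} [DecidableEq Λ] [AddCommGroup Λ] [Countable Λ] {E : Type*}
  [NormedAddCommGroup E] [InnerProductSpace ℂ E] [CompleteSpace E] {c : ℝ} {e : Λ → E}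
  {H : (Λ → ℝ) → (E →L[ℂ] E)}

set_option linter.unusedSectionVars false

theorem qv_cont_mk : Continuous fun p : (ℝ × ℝ) × (Λ → ℝ) => (⟨p.1.1, rexp p.1.2⟩ : ℂ) := by
  have : (fun p : (ℝ × ℝ) × (Λ → ℝ) => (⟨p.1.1, rexp p.1.2⟩ : ℂ))
      = fun p => (p.1.1 : ℂ) + (rexp p.1.2 : ℂ) * I := by
    funext p
    apply Complex.ext <;> simp [Complex.exp_ofReal_re, Complex.exp_ofReal_im]
  rw [this]
  fun_prop

theorem qv_cont_Gr (M : Model c e H) (x : Λ) :
    Continuous fun p : (ℝ × ℝ) × (Λ → ℝ) => Gr e H p.2 (⟨p.1.1, rexp p.1.2⟩ : ℂ) 0 x :=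
  M.continuous_Gr continuous_snd qv_cont_mk (fun _ => Real.exp_pos _) 0 x

theorem aa_meas_exp (M : Model c e H) :
    Measurable fun p : ℝ × ℝ => aa c e H p.1 (rexp p.2) := by
  have := PP_prob Λ M.hc
  have hc1 : Continuous (fun p : (ℝ × ℝ) × (Λ → ℝ) =>
      (Gr e H p.2 (⟨p.1.1, rexp p.1.2⟩ : ℂ) 0 0).im
        / ‖den e H p.2 (⟨p.1.1, rexp p.1.2⟩ : ℂ) 0‖ ^ 2) := by
    refine Continuous.div (Complex.continuous_im.comp (qv_cont_Gr M 0))
      ((M.continuous_den continuous_snd qv_cont_mk (fun p => Real.exp_pos _) 0).norm.pow 2)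
      fun p => ?_
    have := M.one_le_norm_den p.2 (z := (⟨p.1.1, rexp p.1.2⟩ : ℂ)) (Real.exp_pos _) 0
    have h2 : 0 < ‖den e H p.2 (⟨p.1.1, rexp p.1.2⟩ : ℂ) 0‖ := by linarith
    exact (pow_pos h2 2).ne'
  have h : StronglyMeasurable (Function.uncurry fun (p : ℝ × ℝ) (ω : Λ → ℝ) =>
      (Gr e H ω (⟨p.1, rexp p.2⟩ : ℂ) 0 0).im / ‖den e H ω (⟨p.1, rexp p.2⟩ : ℂ) 0‖ ^ 2) :=
    hc1.measurable.stronglyMeasurable
  exact h.integral_prod_right.measurable

theorem oo_meas_exp (M : Model c e H) (B : Finset Λ) :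
    Measurable fun p : ℝ × ℝ => oo c e H B p.1 (rexp p.2) := by
  have := PP_prob Λ M.hc
  have hc1 : Continuous (fun p : (ℝ × ℝ) × (Λ → ℝ) =>
      (Gr e H p.2 (⟨p.1.1, rexp p.1.2⟩ : ℂ) 0 0).im
        - rexp p.1.2 * ∑ y ∈ B, ‖Gr e H p.2 (⟨p.1.1, rexp p.1.2⟩ : ℂ) 0 y‖ ^ 2) := by
    refine (Complex.continuous_im.comp (qv_cont_Gr M 0)).sub (Continuous.mul (by fun_prop)
      (continuous_finsetSum _ fun x _ => (qv_cont_Gr M x).norm.pow 2))
  have h : StronglyMeasurable (Function.uncurry fun (p : ℝ × ℝ) (ω : Λ → ℝ) =>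
      (Gr e H ω (⟨p.1, rexp p.2⟩ : ℂ) 0 0).im
        - rexp p.2 * ∑ y ∈ B, ‖Gr e H ω (⟨p.1, rexp p.2⟩ : ℂ) 0 y‖ ^ 2) :=
    hc1.measurable.stronglyMeasurable
  exact h.integral_prod_right.measurable

theorem qv_log_meas : Measurable fun p : ℝ × ℝ => (p.1, Real.log p.2) :=
  measurable_fst.prodMk (Real.measurable_log.comp measurable_snd)

/-- the reciprocal of the number of sites, where the mass is at least `κ` -/
noncomputable def ff (c : ℝ) (e : Λ → E) (H : (Λ → ℝ) → (E →L[ℂ] E)) (κ : ℝ) (B : Finset Λ)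
    (p : ℝ × ℝ) : ℝ≥0∞ :=
  open Classical in
  if 0 < p.2 ∧ κ ≤ aa c e H p.1 p.2 ∧ oo c e H B p.1 p.2 ≤ κ / 2 then (B.card : ℝ≥0∞)⁻¹ else 0

theorem ff_meas (M : Model c e H) (κ : ℝ) (B : Finset Λ) : Measurable (ff c e H κ B) := by
  have h1 : {p : ℝ × ℝ | 0 < p.2 ∧ κ ≤ aa c e H p.1 p.2 ∧ oo c e H B p.1 p.2 ≤ κ / 2}
      = {p : ℝ × ℝ | 0 < p.2} ∩ ({p : ℝ × ℝ | κ ≤ aa c e H p.1 (rexp (Real.log p.2))} ∩
        {p : ℝ × ℝ | oo c e H B p.1 (rexp (Real.log p.2)) ≤ κ / 2}) := by
    ext p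
    simp only [mem_ofPred_eq, mem_inter_iff]
    refine and_congr_right fun hp => ?_
    rw [Real.exp_log hp]
  have hA : Measurable fun p : ℝ × ℝ => aa c e H p.1 (rexp (Real.log p.2)) := by
    have h := (aa_meas_exp M).comp qv_log_meas
    simpa only [Function.comp_def] using h
  have hO : Measurable fun p : ℝ × ℝ => oo c e H B p.1 (rexp (Real.log p.2)) := by
    have h := (oo_meas_exp M B).comp qv_log_meas
    simpa only [Function.comp_def] using h
  have h2 : MeasurableSet {p : ℝ × ℝ | 0 < p.2 ∧ κ ≤ aa c e H p.1 p.2 ∧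
      oo c e H B p.1 p.2 ≤ κ / 2} := by
    rw [h1]
    exact (measurableSet_lt measurable_const measurable_snd).inter
      ((measurableSet_le measurable_const hA).inter (measurableSet_le hO measurable_const))
  unfold ff
  exact Measurable.ite h2 measurable_const measurable_const

theorem qv_sup_meas (M : Model c e H) (κ : ℝ) (I : Finset (Finset Λ)) :
    Measurable fun p : ℝ × ℝ => I.sup (fun B => ff c e H κ B p) := by
  simp_rw [Finset.sup_eq_iSup]
  exact Measurable.iSup fun B => Measurable.iSup fun _ => ff_meas M κ B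

/-- the change of the scale -/
theorem qv_scale {a : ℝ} (ha : 0 < a) {g : ℝ → ℝ≥0∞} (hg : Measurable g) :
    ∫⁻ η in Ico a (2 * a), g η = ENNReal.ofReal a * ∫⁻ τ in Ico (1:ℝ) 2, g (a * τ) := by
  rw [← lintegral_indicator measurableSet_Ico, ← lintegral_indicator measurableSet_Ico]
  have hm : Measurable ((Ico a (2 * a)).indicator g) := hg.indicator measurableSet_Ico
  conv_lhs => rw [← Real.smul_map_volume_mul_left ha.ne']
  rw [lintegral_smul_measure, abs_of_pos ha, smul_eq_mul,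
    lintegral_map hm (measurable_const_mul a)]
  congr 1
  refine lintegral_congr fun τ => ?_
  have h1 : a * τ ∈ Ico a (2 * a) ↔ τ ∈ Ico (1:ℝ) 2 := by
    rw [mem_Ico, mem_Ico]
    constructor
    · rintro ⟨h1, h2⟩
      exact ⟨by nlinarith, by nlinarith⟩
    · rintro ⟨h1, h2⟩
      exact ⟨by nlinarith, by nlinarith⟩
  by_cases h : τ ∈ Ico (1:ℝ) 2
  · rw [indicator_of_mem h, indicator_of_mem (h1.2 h)]
  · rw [indicator_of_notMem h, indicator_of_notMem fun h2 => h (h1.1 h2)]

theorem qv_cover (c : ℝ) : Ioo 0 (2 * c) ⊆ ⋃ n : ℕ, Ico (len c n) (2 * len c n) := by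
  intro η hη
  have hlim : Tendsto (fun n : ℕ => c * (1/2 : ℝ) ^ n) atTop (𝓝 (c * 0)) :=
    (tendsto_pow_atTop_nhds_zero_of_lt_one (by norm_num) (by norm_num)).const_mul c
  rw [mul_zero] at hlim
  obtain ⟨m, hm⟩ := (hlim.eventually (gt_mem_nhds hη.1)).exists
  have hlen : ∀ n : ℕ, len c n = c * (1/2 : ℝ) ^ n := fun n => by
    unfold len
    rw [div_eq_mul_inv, one_div, inv_pow]
  have hex : ∃ n, len c n ≤ η := ⟨m, by rw [hlen]; exact hm.le⟩
  classical
  refine mem_iUnion.2 ⟨Nat.find hex, Nat.find_spec hex, ?_⟩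
  rcases Nat.eq_zero_or_pos (Nat.find hex) with h0 | h0
  · rw [h0, hlen, pow_zero, mul_one]
    exact hη.2
  · obtain ⟨j, hj⟩ := Nat.exists_eq_succ_of_ne_zero h0.ne'
    have h1 : ¬ len c j ≤ η := Nat.find_min hex (by rw [hj]; exact Nat.lt_succ_self j)
    rw [hj, hlen, pow_succ]
    rw [hlen] at h1
    push Not at h1
    linarith

/-- the bound for finitely many sets -/
theorem qv_fin (M : Model c e H) {V : Λ → (E ≃ₗᵢ[ℂ] E)} (hH : CovOp V H) {κ : ℝ} (hκ : 0 < κ)
    (hκ1 : κ ≤ 1) (I : Finset (Finset Λ)) :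
    ∫⁻ η in Ioo 0 (2 * c), (∫⁻ u, ENNReal.ofReal ((η ^ 2)⁻¹) * I.sup (fun B => ff c e H κ B (u, η))
      ∂kap) ≤ ENNReal.ofReal (2 * (20480 / ((κ / 704) ^ 2 * c * κ ^ 2))) := by
  classical
  have := PP_prob Λ M.hc
  have hc := M.hc
  set C : ℝ := 20480 / ((κ / 704) ^ 2 * c * κ ^ 2) with hC
  have hC0 : 0 < C := by positivity
  set ε : ℝ := (κ / 704) ^ 2 with hεd
  have hε : 0 < ε := by positivity
  have hε1 : ε ≤ 1 := by
    rw [hεd]
    have : κ / 704 ≤ 1 := by rw [div_le_one (by norm_num)]; linarith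
    exact pow_le_one₀ (by positivity) this
  set L : Finset Λ := I.sup id with hL
  have hBL : ∀ B ∈ I, B ⊆ L := fun B hB => by
    have := Finset.le_sup (f := id) hB
    exact this
  set F : ℝ × ℝ → ℝ≥0∞ := fun p => I.sup (fun B => ff c e H κ B p) with hF
  have hFm : Measurable F := qv_sup_meas M κ I
  set G : ℝ → ℝ≥0∞ := fun η => ∫⁻ u, ENNReal.ofReal ((η ^ 2)⁻¹) * F (u, η) ∂kap with hG
  have hGm : Measurable G := by
    have h1 : Measurable (Function.uncurry fun (η u : ℝ) =>
        ENNReal.ofReal ((η ^ 2)⁻¹) * F (u, η)) := by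
      refine Measurable.mul (by fun_prop) (hFm.comp (measurable_snd.prodMk measurable_fst))
    exact h1.lintegral_prod_right'
  -- the bound of `G` in one window
  have hGle : ∀ (N n : ℕ) (η : ℝ), n < N → len c n ≤ η → η ≤ 2 * len c n →
      G η ≤ ENNReal.ofReal (C * (1 / η) * ∫ u, rr c e H L N ε n u η ∂kap) := by
    intro N n η hn h1 h2
    have hη : 0 < η := (len_pos hc n).trans_le h1
    have hint := (rr_budget M hH L N hε hε1 (h := fun _ => η) (fun _ => hη) 0).1 n
    rw [mul_assoc, ENNReal.ofReal_mul hC0.le, ENNReal.ofReal_mul (by positivity),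
      ofReal_integral_eq_lintegral_ofReal hint
      (ae_of_all _ fun u => rr_nonneg M L N hε hε1 n u η), ← mul_assoc,
      ← lintegral_const_mul' _ _ (by finiteness)]
    refine lintegral_mono fun u => ?_
    have h3 : F (u, η) ≤ ENNReal.ofReal (C * (η * rr c e H L N ε n u η)) := by
      refine Finset.sup_le fun B hB => ?_
      unfold ff
      split_ifs with h
      · obtain ⟨h4, h5⟩ := key M hκ hκ1 hn (hBL B hB) h1 h2 h.2.1 h.2.2
        rw [← ENNReal.ofReal_natCast, ← ENNReal.ofReal_inv_of_pos (by exact_mod_cast h4)]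
        refine ENNReal.ofReal_le_ofReal ?_
        rw [one_div] at h5
        exact h5
      · exact zero_le
    calc ENNReal.ofReal ((η ^ 2)⁻¹) * F (u, η)
        ≤ ENNReal.ofReal ((η ^ 2)⁻¹) * ENNReal.ofReal (C * (η * rr c e H L N ε n u η)) := by gcongr
      _ = _ := by
          rw [← ENNReal.ofReal_mul (by positivity), ← ENNReal.ofReal_mul hC0.le,
            ← ENNReal.ofReal_mul (by positivity)]
          congr 1
          field_simp
  have hwin : ∀ N : ℕ, ∑ n ∈ Finset.range N, ∫⁻ η in Ico (len c n) (2 * len c n), G η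
      ≤ ENNReal.ofReal (2 * C) := by
    intro N
    have h1 : ∑ n ∈ Finset.range N, ∫⁻ η in Ico (len c n) (2 * len c n), G η
        = ∫⁻ τ in Ico (1:ℝ) 2, ∑ n ∈ Finset.range N, ENNReal.ofReal (len c n) * G (len c n * τ) := by
      have hm : ∀ n ∈ Finset.range N, Measurable fun τ : ℝ =>
          ENNReal.ofReal (len c n) * G (len c n * τ) := fun n _ =>
        (hGm.comp (measurable_const_mul (len c n))).const_mul _
      rw [lintegral_finsetSum _ hm]
      refine Finset.sum_congr rfl fun n _ => ?_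
      rw [qv_scale (len_pos hc n) hGm, lintegral_const_mul' _ _ ENNReal.ofReal_ne_top]
    rw [h1]
    calc ∫⁻ τ in Ico (1:ℝ) 2, ∑ n ∈ Finset.range N, ENNReal.ofReal (len c n) * G (len c n * τ)
        ≤ ∫⁻ _τ in Ico (1:ℝ) 2, ENNReal.ofReal (2 * C) := by
          refine setLIntegral_mono' measurableSet_Ico fun τ hτ => ?_
          have hτ0 : 0 < τ := by linarith [hτ.1]
          have hbud := (rr_budget M hH L N hε hε1 (h := fun n => len c n * τ)
            (fun n => mul_pos (len_pos hc n) hτ0) N).2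
          have hRn : ∀ n, 0 ≤ ∫ u, rr c e H L N ε n u (len c n * τ) ∂kap := fun n =>
            integral_nonneg fun u => rr_nonneg M L N hε hε1 n u _
          calc ∑ n ∈ Finset.range N, ENNReal.ofReal (len c n) * G (len c n * τ)
              ≤ ∑ n ∈ Finset.range N,
                ENNReal.ofReal (C * ∫ u, rr c e H L N ε n u (len c n * τ) ∂kap) := by
                refine Finset.sum_le_sum fun n hn => ?_
                have hl := len_pos hc n
                have h2 := hGle N n (len c n * τ) (Finset.mem_range.1 hn)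
                  (by nlinarith [hτ.1]) (by nlinarith [hτ.2])
                refine (mul_le_mul' le_rfl h2).trans ?_
                rw [← ENNReal.ofReal_mul hl.le]
                refine ENNReal.ofReal_le_ofReal ?_
                have h3 : len c n * (C * (1 / (len c n * τ)) *
                    ∫ u, rr c e H L N ε n u (len c n * τ) ∂kap)
                    = (1 / τ) * (C * ∫ u, rr c e H L N ε n u (len c n * τ) ∂kap) := by
                  field_simp
                rw [h3]
                refine mul_le_of_le_one_left (mul_nonneg hC0.le (hRn n)) ?_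
                rw [div_le_one hτ0]
                exact hτ.1
            _ = ENNReal.ofReal (∑ n ∈ Finset.range N,
                C * ∫ u, rr c e H L N ε n u (len c n * τ) ∂kap) :=
                (ENNReal.ofReal_sum_of_nonneg fun n _ => mul_nonneg hC0.le (hRn n)).symm
            _ ≤ ENNReal.ofReal (2 * C) := by
                refine ENNReal.ofReal_le_ofReal ?_
                rw [← Finset.mul_sum]
                nlinarith
      _ = ENNReal.ofReal (2 * C) := by
          rw [setLIntegral_const, Real.volume_Ico]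
          norm_num
  calc ∫⁻ η in Ioo 0 (2 * c), G η ≤ ∫⁻ η in ⋃ n : ℕ, Ico (len c n) (2 * len c n), G η :=
        lintegral_mono_set (qv_cover c)
    _ ≤ ∑' n : ℕ, ∫⁻ η in Ico (len c n) (2 * len c n), G η := lintegral_iUnion_le _ _
    _ ≤ ENNReal.ofReal (2 * C) := ENNReal.tsum_le_of_sum_range_le hwin

/-- **The average over the energies and the scales.** -/
theorem qv_avg (M : Model c e H) {V : Λ → (E ≃ₗᵢ[ℂ] E)} (hH : CovOp V H) {κ : ℝ} (hκ : 0 < κ)
    (hκ1 : κ ≤ 1) :
    ∀ᵐ u ∂(volume : Measure ℝ), ∫⁻ η in Ioo 0 (2 * c),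
      ENNReal.ofReal ((η ^ 2)⁻¹) * ⨆ B : Finset Λ, ff c e H κ B (u, η) < ⊤ := by
  classical
  obtain ⟨g, hg⟩ := exists_surjective_nat (Finset Λ)
  set Fk : ℕ → ℝ × ℝ → ℝ≥0∞ := fun k p => ENNReal.ofReal ((p.2 ^ 2)⁻¹) *
    ((Finset.range k).image g).sup (fun B => ff c e H κ B p) with hFk
  have hFkm : ∀ k, Measurable (Fk k) := by
    intro k
    exact Measurable.mul (by fun_prop) (qv_sup_meas M κ ((Finset.range k).image g))
  have hmono : Monotone Fk := by
    intro i j hij p
    simp only [hFk]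
    exact mul_le_mul' le_rfl (Finset.sup_mono (Finset.image_subset_image (Finset.range_mono hij)))
  have hsup : ∀ p, ⨆ k, Fk k p = ENNReal.ofReal ((p.2 ^ 2)⁻¹) *
      ⨆ B : Finset Λ, ff c e H κ B p := by
    intro p
    simp only [hFk]
    rw [← ENNReal.mul_iSup]
    congr 1
    refine le_antisymm (iSup_le fun k => Finset.sup_le fun B _ =>
      le_iSup (fun B => ff c e H κ B p) B) ?_
    refine iSup_le fun B => ?_
    obtain ⟨i, rfl⟩ := hg B
    refine le_trans ?_ (le_iSup _ (i + 1))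
    exact Finset.le_sup (f := fun B => ff c e H κ B p) (Finset.mem_image_of_mem g (by simp))
  have hle : ∀ k, ∫⁻ p, Fk k p ∂(kap.prod (volume.restrict (Ioo 0 (2 * c))))
      ≤ ENNReal.ofReal (2 * (20480 / ((κ / 704) ^ 2 * c * κ ^ 2))) := by
    intro k
    rw [lintegral_prod_symm _ (hFkm k).aemeasurable]
    exact qv_fin M hH hκ hκ1 _
  have hfin : ∫⁻ p, ⨆ k, Fk k p ∂(kap.prod (volume.restrict (Ioo 0 (2 * c)))) < ⊤ := by
    rw [lintegral_iSup hFkm hmono]
    exact lt_of_le_of_lt (iSup_le hle) ENNReal.ofReal_lt_top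
  have hm : Measurable fun p : ℝ × ℝ => ⨆ k, Fk k p := Measurable.iSup hFkm
  rw [lintegral_prod _ hm.aemeasurable] at hfin
  have hae := ae_lt_top hm.lintegral_prod_right' hfin.ne
  refine ac_kap.ae_le ?_
  filter_upwards [hae] with u hu
  simp_rw [hsup] at hu
  exact hu

end Pool.Agent.Lib.MP_562b47_mp.QV
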