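import Mathlib
import Pool.Agent.Lib.MP_562b47_mp.QL.AC
import Pool.Agent.Lib.MP_562b47_mp.QV.Avg

/-!
Energy-pointwise Pólya criterion (MP_562b47_mp), module Set: the transient energies carry the
absolutely continuous part of the spectral measure of `e 0`.
-/

open MeasureTheory Set Filter Topology Complex
open scoped Real ENNReal NNReal InnerProductSpace

namespace Pool.Agent.Lib.MP_562b47_mp.QV

open Pool.Agent.Lib.MP_562b47_mp.QP
open Pool.Agent.Lib.MP_562b47_mp.QL (NoAC)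

variable {Λ : Type*} [DecidableEq Λ] [AddCommGroup Λ] [Countable Λ] {E : Type*}
  [NormedAddCommGroup E] [InnerProductSpace ℂ E] [CompleteSpace E] {c : ℝ} {e : Λ → E}
  {H : (Λ → ℝ) → (E →L[ℂ] E)}

set_option linter.unusedSectionVars false

/-- the number of sites at the energy `u` -/
noncomputable def NN (c : ℝ) (e : Λ → E) (H : (Λ → ℝ) → (E →L[ℂ] E)) (δ u η : ℝ) : ℝ≥0∞ :=
  ⨅ (B : Finset Λ) (_ : oo c e H B u η ≤ δ), (B.card : ℝ≥0∞)

theorem NN_anti {δ δ' : ℝ} (h : δ' ≤ δ) (u η : ℝ) : NN c e H δ u η ≤ NN c e H δ' u η := by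
  unfold NN
  exact le_iInf₂ fun B hB => iInf₂_le B (hB.trans h)

theorem NN_inv (δ u η : ℝ) : (NN c e H δ u η)⁻¹
    = ⨆ (B : Finset Λ) (_ : oo c e H B u η ≤ δ), (B.card : ℝ≥0∞)⁻¹ := by
  unfold NN
  rw [ENNReal.inv_iInf]
  refine iSup_congr fun B => ?_
  rw [ENNReal.inv_iInf]

/-- the integrand -/
noncomputable def II (c : ℝ) (e : Λ → E) (H : (Λ → ℝ) → (E →L[ℂ] E)) (δ : ℝ) (u η : ℝ) : ℝ≥0∞ :=
  ENNReal.ofReal ((η ^ 2)⁻¹) * (NN c e H δ u η)⁻¹

/-- the transient energies -/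
def TT (c : ℝ) (e : Λ → E) (H : (Λ → ℝ) → (E →L[ℂ] E)) : Set ℝ :=
  {u | ∃ δ : ℝ, 0 < δ ∧ ∫⁻ η in Ioo 0 δ, II c e H δ u η < ⊤}

theorem II_meas (M : Model c e H) (δ : ℝ) :
    Measurable fun p : ℝ × ℝ => if 0 < p.2 then II c e H δ p.1 p.2 else 0 := by
  classical
  have hO : ∀ B, Measurable fun p : ℝ × ℝ => oo c e H B p.1 (rexp (Real.log p.2)) := by
    intro B
    have h := (oo_meas_exp M B).comp qv_log_meas
    simpa only [Function.comp_def] using h
  have h1 : (fun p : ℝ × ℝ => if 0 < p.2 then II c e H δ p.1 p.2 else 0)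
      = fun p => if 0 < p.2 then ENNReal.ofReal ((p.2 ^ 2)⁻¹) * ⨆ B : Finset Λ,
        (if oo c e H B p.1 (rexp (Real.log p.2)) ≤ δ then (B.card : ℝ≥0∞)⁻¹ else 0) else 0 := by
    funext p
    split_ifs with hp
    · unfold II
      rw [NN_inv]
      congr 1
      refine iSup_congr fun B => ?_
      rw [Real.exp_log hp]
      split_ifs with h
      · simp [h]
      · simp [h]
    · rfl
  rw [h1]
  refine Measurable.ite (measurableSet_lt measurable_const measurable_snd) ?_ measurable_const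
  refine Measurable.mul (by fun_prop) (Measurable.iSup fun B => ?_)
  exact Measurable.ite (measurableSet_le (hO B) measurable_const) measurable_const measurable_const

theorem II_int_meas (M : Model c e H) (δ a : ℝ) :
    Measurable fun u => ∫⁻ η in Ioo 0 a, II c e H δ u η := by
  have h1 := (II_meas M δ).lintegral_prod_right' (ν := volume.restrict (Ioo 0 a))
  have h2 : (fun u => ∫⁻ η in Ioo 0 a, II c e H δ u η)
      = fun u => ∫⁻ η in Ioo 0 a, if 0 < (u, η).2 then II c e H δ (u, η).1 (u, η).2 else 0 := by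
    funext u
    refine setLIntegral_congr_fun measurableSet_Ioo fun η hη => ?_
    simp only
    rw [if_pos hη.1]
  rw [h2]
  exact h1

theorem II_int_mono {δ δ' : ℝ} (h : δ' ≤ δ) (u : ℝ) :
    ∫⁻ η in Ioo 0 δ', II c e H δ' u η ≤ ∫⁻ η in Ioo 0 δ, II c e H δ u η := by
  refine (lintegral_mono fun η => ?_).trans (lintegral_mono_set (Ioo_subset_Ioo_right h))
  unfold II
  gcongr
  exact NN_anti h u η

theorem TT_eq : TT c e H = ⋃ j : ℕ, {u | ∫⁻ η in Ioo 0 (1 / ((j:ℝ) + 1)),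
    II c e H (1 / ((j:ℝ) + 1)) u η < ⊤} := by
  ext u
  simp only [TT, mem_ofPred_eq, mem_iUnion]
  constructor
  · rintro ⟨δ, hδ, h⟩
    obtain ⟨j, hj⟩ := exists_nat_one_div_lt hδ
    exact ⟨j, lt_of_le_of_lt (II_int_mono hj.le u) h⟩
  · rintro ⟨j, hj⟩
    exact ⟨1 / ((j:ℝ) + 1), by positivity, hj⟩

theorem TT_meas (M : Model c e H) : MeasurableSet (TT c e H) := by
  rw [TT_eq]
  exact MeasurableSet.iUnion fun j => measurableSet_lt (II_int_meas M _ _) measurable_const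

/-- outside of `TT` the mass is small at small scales -/
theorem qv_small (M : Model c e H) {V : Λ → (E ≃ₗᵢ[ℂ] E)} (hH : CovOp V H) :
    ∀ᵐ u ∂(volume : Measure ℝ), u ∈ TT c e H ∨ ∀ j : ℕ, ∃ η : ℝ, 0 < η ∧ η < 1 / ((j:ℝ) + 1) ∧
      aa c e H u η < 1 / ((j:ℝ) + 1) := by
  have hc := M.hc
  have h1 : ∀ᵐ u ∂(volume : Measure ℝ), ∀ j : ℕ, ∫⁻ η in Ioo 0 (2 * c),
      ENNReal.ofReal ((η ^ 2)⁻¹) * ⨆ B : Finset Λ, ff c e H (1 / ((j:ℝ) + 1)) B (u, η) < ⊤ := by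
    rw [ae_all_iff]
    intro j
    refine qv_avg M hH (by positivity) ?_
    rw [div_le_one (by positivity)]
    have : (0:ℝ) ≤ j := Nat.cast_nonneg j
    linarith
  filter_upwards [h1] with u hu
  by_contra hcon
  push Not at hcon
  obtain ⟨hT, j, hj⟩ := hcon
  apply hT
  set κ : ℝ := 1 / ((j:ℝ) + 1) with hκd
  have hκ : 0 < κ := by positivity
  set δ : ℝ := min (κ / 2) (2 * c) with hδd
  have hδ : 0 < δ := lt_min (by positivity) (by positivity)
  refine ⟨δ, hδ, lt_of_le_of_lt ?_ (hu j)⟩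
  refine (setLIntegral_mono' measurableSet_Ioo fun η hη => ?_).trans
    (lintegral_mono_set (Ioo_subset_Ioo_right (min_le_right _ _)))
  have hη0 : 0 < η := hη.1
  have hηκ : η < κ := by
    have h2 := hη.2
    have h3 := min_le_left (κ / 2) (2 * c)
    linarith
  have ha := hj η hη0 hηκ
  unfold II
  gcongr
  rw [NN_inv]
  refine iSup₂_le fun B hB => ?_
  refine le_trans ?_ (le_iSup _ B)
  unfold ff
  rw [if_pos ⟨hη0, ha, hB.trans (min_le_left _ _)⟩]

/-- the fractional moment at one energy -/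
theorem qv_half (M : Model c e H) (o : Λ) {η : ℝ} (hη : 0 < η) (s : ℝ) :
    Integrable (fun ω : Λ → ℝ => ‖Gr e H ω (⟨s, η⟩ : ℂ) o o‖ ^ (1/2 : ℝ)) (PP Λ c) ∧
    ∫ ω, ‖Gr e H ω (⟨s, η⟩ : ℂ) o o‖ ^ (1/2 : ℝ) ∂(PP Λ c) ≤ 8 * (1 / c) ^ (1/2 : ℝ) := by
  have := PP_prob Λ M.hc
  have := unif_prob M.hc
  have hcont : Continuous fun ω : Λ → ℝ => ‖Gr e H ω (⟨s, η⟩ : ℂ) o o‖ ^ (1/2 : ℝ) :=
    ((M.continuous_Gr continuous_id continuous_const (fun _ => hη) o o).norm).rpow_const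
      (fun _ => Or.inr (by norm_num))
  have hbd : ∀ ω, ‖Gr e H ω (⟨s, η⟩ : ℂ) o o‖ ^ (1/2 : ℝ) ≤ (1 / η) ^ (1/2 : ℝ) := fun ω =>
    Real.rpow_le_rpow (norm_nonneg _) (M.norm_Gr_le ω (z := (⟨s, η⟩ : ℂ)) hη o o) (by norm_num)
  refine ⟨Integrable.of_bound (C := (1 / η) ^ (1/2 : ℝ)) hcont.aestronglyMeasurable
      (ae_of_all _ fun q => by
        rw [Real.norm_of_nonneg (by positivity)]
        exact hbd _), ?_⟩
  rw [← integral_resample M.hc o hcont.measurable (C := (1 / η) ^ (1/2 : ℝ)) fun ω => by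
    rw [abs_of_nonneg (by positivity)]
    exact hbd ω]
  calc ∫ ω, (∫ v, ‖Gr e H (Function.update ω o v) (⟨s, η⟩ : ℂ) o o‖ ^ (1/2 : ℝ) ∂(unif c))
          ∂(PP Λ c)
        ≤ ∫ _ω, 8 * (1 / c) ^ (1/2 : ℝ) ∂(PP Λ c) := by
          refine integral_mono_of_nonneg (ae_of_all _ fun ω => integral_nonneg fun v => by
            positivity) (integrable_const _) (ae_of_all _ fun ω => ?_)
          obtain ⟨a, hne, hG⟩ := M.Gr_affine ω (z := (⟨s, η⟩ : ℂ)) hη o
          simp only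
          set β := Gr e H ω (⟨s, η⟩ : ℂ) o o with hβ
          have h3 : ∫ v, ‖Gr e H (Function.update ω o v) (⟨s, η⟩ : ℂ) o o‖ ^ (1/2 : ℝ) ∂(unif c)
              = ∫ v, ‖β / (a + β * (v : ℂ))‖ ^ (1/2 : ℝ) ∂(unif c) := by
            refine integral_congr_ae ?_
            filter_upwards [ae_unif c] with v hv
            rw [hG v hv]
          rw [h3]
          refine (frac_unif M.hc β a β hne).trans ?_
          have h4 := norm_b_le M.hc a β
          have h5 := max_pos_of M.hc a β hne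
          have h6 : ‖β‖ / max ‖a + β * c‖ ‖a - β * c‖ ≤ 1 / c := by
            rw [div_le_div_iff₀ h5 M.hc]; linarith
          have h7 := Real.rpow_le_rpow (by positivity) h6 (by norm_num : (0:ℝ) ≤ 1/2)
          linarith
      _ = _ := by simp

theorem qv_minint (M : Model c e H) {u η : ℝ} (hη : 0 < η) :
    Integrable (fun ω : Λ → ℝ => min 1 (Gr e H ω (⟨u, η⟩ : ℂ) 0 0).im) (PP Λ c) := by
  have := PP_prob Λ M.hc
  refine Integrable.of_bound (C := 1) (continuous_const.min (Complex.continuous_im.comp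
    (M.continuous_Gr continuous_id continuous_const (fun _ => hη) 0 0))).aestronglyMeasurable
    (ae_of_all _ fun ω => ?_)
  rw [Real.norm_of_nonneg (le_min zero_le_one
    (M.im_Gr_pos ω (z := (⟨u, η⟩ : ℂ)) hη 0).le)]
  exact min_le_left _ _

theorem qv_min_le (M : Model c e H) {u η K : ℝ} (hη : 0 < η) (hK : 0 < K) :
    ∫ ω, min 1 (Gr e H ω (⟨u, η⟩ : ℂ) 0 0).im ∂(PP Λ c)
      ≤ (1 + K) ^ 2 * aa c e H u η + (1 / K) ^ (1/2 : ℝ) * (8 * (1 / c) ^ (1/2 : ℝ)) := by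
  have := PP_prob Λ M.hc
  obtain ⟨i2, h2⟩ := qv_half M 0 hη u
  have i1 := qv_minint M (u := u) hη
  have i3 := (oo_integrable M ∅ (u := u) hη).1
  have h3 : ∫ ω, (min 1 (Gr e H ω (⟨u, η⟩ : ℂ) 0 0).im
        - (1 / K) ^ (1/2 : ℝ) * ‖Gr e H ω (⟨u, η⟩ : ℂ) 0 0‖ ^ (1/2 : ℝ)) ∂(PP Λ c)
      ≤ ∫ ω, (1 + K) ^ 2 * ((Gr e H ω (⟨u, η⟩ : ℂ) 0 0).im
        / ‖den e H ω (⟨u, η⟩ : ℂ) 0‖ ^ 2) ∂(PP Λ c) := by
    refine integral_mono (i1.sub (i2.const_mul _)) (i3.const_mul _) fun ω => ?_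
    exact ac_point (M.im_Gr_pos ω (z := (⟨u, η⟩ : ℂ)) hη 0) hK
  rw [integral_sub i1 (i2.const_mul _), integral_const_mul, integral_const_mul] at h3
  have h4 : (1 / K) ^ (1/2 : ℝ) * ∫ ω, ‖Gr e H ω (⟨u, η⟩ : ℂ) 0 0‖ ^ (1/2 : ℝ) ∂(PP Λ c)
      ≤ (1 / K) ^ (1/2 : ℝ) * (8 * (1 / c) ^ (1/2 : ℝ)) := by gcongr
  unfold aa
  linarith

/-- the bad set -/
def ZZ (e : Λ → E) (H : (Λ → ℝ) → (E →L[ℂ] E)) (j : ℕ) : Set (ℝ × (Λ → ℝ)) :=
  {p | ∀ η : ℝ, 0 < η → η < 1 / ((j:ℝ) + 1) → 1 / ((j:ℝ) + 1) ≤ (Gr e H p.2 (⟨p.1, η⟩ : ℂ) 0 0).im}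

theorem ZZ_closed (M : Model c e H) (j : ℕ) : IsClosed (ZZ e H j) := by
  have h1 : ZZ e H j = ⋂ (η : ℝ) (_ : 0 < η) (_ : η < 1 / ((j:ℝ) + 1)),
      {p : ℝ × (Λ → ℝ) | 1 / ((j:ℝ) + 1) ≤ (Gr e H p.2 (⟨p.1, η⟩ : ℂ) 0 0).im} := by
    ext p
    simp only [ZZ, mem_ofPred_eq, mem_iInter]
  rw [h1]
  refine isClosed_iInter fun η => isClosed_iInter fun hη => isClosed_iInter fun _ => ?_
  exact isClosed_le continuous_const (Complex.continuous_im.comp (qps_Gr M 0 0 hη))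

/-- outside of `TT` the bad sections are null -/
theorem qv_null (M : Model c e H) {V : Λ → (E ≃ₗᵢ[ℂ] E)} (hH : CovOp V H) (j : ℕ) :
    ∀ᵐ u ∂(volume : Measure ℝ), ∀ᵐ ω ∂(PP Λ c), u ∈ TT c e H ∨ (u, ω) ∉ ZZ e H j := by
  have := PP_prob Λ M.hc
  have hc := M.hc
  filter_upwards [qv_small M hH] with u hu
  rcases hu with hu | hu
  · exact ae_of_all _ fun ω => Or.inl hu
  have hsec : MeasurableSet {ω : Λ → ℝ | (u, ω) ∈ ZZ e H j} :=
    (ZZ_closed M j).measurableSet.preimage measurable_prodMk_left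
  have hreal : (PP Λ c).real {ω : Λ → ℝ | (u, ω) ∈ ZZ e H j} = 0 := by
    refine le_antisymm (le_of_forall_pos_le_add fun ε hε => ?_) measureReal_nonneg
    rw [zero_add]
    set t : ℝ := 1 / ((j:ℝ) + 1) with ht
    have ht0 : 0 < t := by positivity
    have ht1 : t ≤ 1 := by
      rw [ht, div_le_one (by positivity)]
      have : (0:ℝ) ≤ j := Nat.cast_nonneg j
      linarith
    set A : ℝ := 8 * (1 / c) ^ (1/2 : ℝ) with hA
    have hA0 : 0 < A := by positivity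
    set K : ℝ := (2 * A / (ε * t)) ^ 2 with hK
    have hK0 : 0 < K := by positivity
    have hKs : (1 / K) ^ (1/2 : ℝ) = ε * t / (2 * A) := by
      have : 1 / K = (ε * t / (2 * A)) ^ 2 := by
        rw [hK]
        field_simp
      rw [this, ← Real.sqrt_eq_rpow, Real.sqrt_sq (by positivity)]
    obtain ⟨i, hi⟩ := exists_nat_one_div_lt (show 0 < min t (ε * t / (2 * (1 + K) ^ 2)) from
      lt_min ht0 (by positivity))
    obtain ⟨η, hη0, hη1, ha⟩ := hu i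
    have hηt : η < t := hη1.trans (hi.trans_le (min_le_left _ _))
    have ha2 : aa c e H u η ≤ ε * t / (2 * (1 + K) ^ 2) :=
      (ha.trans (hi.trans_le (min_le_right _ _))).le
    have h1 := qv_min_le M (u := u) hη0 hK0
    rw [hKs, ← hA] at h1
    have h2 : (1 + K) ^ 2 * aa c e H u η ≤ ε * t / 2 := by
      calc (1 + K) ^ 2 * aa c e H u η ≤ (1 + K) ^ 2 * (ε * t / (2 * (1 + K) ^ 2)) := by gcongr
        _ = ε * t / 2 := by field_simp
    have h3 : ε * t / (2 * A) * A = ε * t / 2 := by field_simp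
    have h4 : ∫ ω, min 1 (Gr e H ω (⟨u, η⟩ : ℂ) 0 0).im ∂(PP Λ c) ≤ ε * t := by linarith
    have h5 : t * (PP Λ c).real {ω : Λ → ℝ | (u, ω) ∈ ZZ e H j}
        ≤ ∫ ω, min 1 (Gr e H ω (⟨u, η⟩ : ℂ) 0 0).im ∂(PP Λ c) := by
      have h6 : ∫ ω, ({ω : Λ → ℝ | (u, ω) ∈ ZZ e H j}).indicator (fun _ => t) ω ∂(PP Λ c)
          = t * (PP Λ c).real {ω : Λ → ℝ | (u, ω) ∈ ZZ e H j} := by
        rw [integral_indicator hsec, setIntegral_const, smul_eq_mul, mul_comm]
      rw [← h6]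
      refine integral_mono ((integrable_const t).indicator hsec) (qv_minint M hη0) fun ω => ?_
      by_cases hω : ω ∈ {ω : Λ → ℝ | (u, ω) ∈ ZZ e H j}
      · simp only [indicator_of_mem hω]
        exact le_min ht1 (hω η hη0 hηt)
      · simp only [indicator_of_notMem hω]
        exact le_min zero_le_one (M.im_Gr_pos ω (z := (⟨u, η⟩ : ℂ)) hη0 0).le
    have h7 : t * (PP Λ c).real {ω : Λ → ℝ | (u, ω) ∈ ZZ e H j} ≤ t * ε := by linarith
    exact le_of_mul_le_mul_left h7 ht0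
  have h0 : (PP Λ c) {ω : Λ → ℝ | (u, ω) ∈ ZZ e H j} = 0 := by
    rw [measureReal_def, ENNReal.toReal_eq_zero_iff] at hreal
    exact hreal.resolve_right (measure_ne_top _ _)
  have h8 : ∀ᵐ ω ∂(PP Λ c), ω ∉ {ω : Λ → ℝ | (u, ω) ∈ ZZ e H j} := measure_eq_zero_iff_ae_notMem.1 h0
  filter_upwards [h8] with ω hω
  exact Or.inr hω

theorem qv_pois (μ : Measure ℝ) [IsFiniteMeasure μ] (u : ℝ) {η : ℝ} (hη : 0 < η) :
    μ.real (Metric.closedBall u η) / (2 * η) ≤ Pois μ (⟨u, η⟩ : ℂ) := by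
  have hb : MeasurableSet (Metric.closedBall u η) := measurableSet_closedBall
  have h1 : ∫ l, (Metric.closedBall u η).indicator (fun _ => 1 / (2 * η)) l ∂μ
      = μ.real (Metric.closedBall u η) / (2 * η) := by
    rw [integral_indicator hb, setIntegral_const, smul_eq_mul]
    ring
  rw [← h1]
  unfold Pois
  refine integral_mono ((integrable_const _).indicator hb)
    (integrable_pker μ (z := (⟨u, η⟩ : ℂ)) hη) fun l => ?_
  by_cases hl : l ∈ Metric.closedBall u η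
  · simp only [indicator_of_mem hl]
    rw [Metric.mem_closedBall, Real.dist_eq] at hl
    have h2 : (l - u) ^ 2 ≤ η ^ 2 := by
      rw [← sq_abs (l - u)]
      exact pow_le_pow_left₀ (abs_nonneg _) hl 2
    unfold pker
    rw [div_le_div_iff₀ (by positivity) (by positivity)]
    simp only
    nlinarith
  · simp only [indicator_of_notMem hl]
    unfold pker
    simp only
    positivity

/-- **The transient energies carry the absolutely continuous part.** -/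
theorem qv_noAC (M : Model c e H) {V : Λ → (E ≃ₗᵢ[ℂ] E)} (hH : CovOp V H) :
    ∀ᵐ ω ∂(PP Λ c), ∀ μ : Measure ℝ, IsFiniteMeasure μ → IsSpec (H ω) (e 0) μ →
      NoAC μ (TT c e H)ᶜ := by
  have := PP_prob Λ M.hc
  have h1 : ∀ᵐ ω ∂(PP Λ c), ∀ j : ℕ, ∀ᵐ u ∂(volume : Measure ℝ),
      u ∈ TT c e H ∨ (u, ω) ∉ ZZ e H j := by
    rw [ae_all_iff]
    intro j
    have hmeas : MeasurableSet {p : ℝ × (Λ → ℝ) | p.1 ∈ TT c e H ∨ p ∉ ZZ e H j} :=
      ((TT_meas M).preimage measurable_fst).union (ZZ_closed M j).measurableSet.compl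
    exact (Measure.ae_ae_comm (p := fun u ω => u ∈ TT c e H ∨ (u, ω) ∉ ZZ e H j) hmeas).1
      (qv_null M hH j)
  filter_upwards [h1] with ω hω μ hμf hμ
  rw [← ae_all_iff] at hω
  unfold NoAC
  rw [ae_restrict_iff' (TT_meas M).compl]
  filter_upwards [hω, Besicovitch.ae_tendsto_rnDeriv μ volume, Measure.rnDeriv_lt_top μ volume]
    with u hu hlim hfin huT
  have hZ : ∀ j : ℕ, (u, ω) ∉ ZZ e H j := fun j => (hu j).resolve_left huT
  by_contra hD
  have hr : 0 < (μ.rnDeriv volume u).toReal := by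
    rcases (ENNReal.toReal_nonneg (a := μ.rnDeriv volume u)).lt_or_eq with h | h
    · exact h
    · exfalso
      apply hD
      unfold Dens
      rw [← h, mul_zero]
  set r : ℝ := (μ.rnDeriv volume u).toReal with hrd
  have hrlt : ENNReal.ofReal (r / 2) < μ.rnDeriv volume u := by
    rw [← ENNReal.ofReal_toReal hfin.ne, ← hrd, ENNReal.ofReal_lt_ofReal_iff hr]
    linarith
  have hev := hlim.eventually (lt_mem_nhds hrlt)
  rw [eventually_nhdsWithin_iff, Metric.eventually_nhds_iff] at hev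
  obtain ⟨ε, hε, hev⟩ := hev
  obtain ⟨j, hj⟩ := exists_nat_one_div_lt (show 0 < min ε (r / 2) from lt_min hε (by positivity))
  apply hZ j
  intro η hη0 hη1
  have hηε : η < ε := hη1.trans (hj.trans_le (min_le_left _ _))
  have h2 := hev (y := η) (by rw [Real.dist_eq, sub_zero, abs_of_pos hη0]; exact hηε) hη0
  rw [Real.volume_closedBall] at h2
  have hvol : ENNReal.ofReal (2 * η) ≠ 0 := by simpa using hη0
  rw [ENNReal.lt_div_iff_mul_lt (Or.inl hvol) (Or.inl ENNReal.ofReal_ne_top),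
    ← ENNReal.ofReal_mul (by positivity)] at h2
  have h3 : r / 2 * (2 * η) ≤ μ.real (Metric.closedBall u η) := by
    rw [measureReal_def]
    exact (ENNReal.ofReal_le_iff_le_toReal (measure_ne_top _ _)).1 h2.le
  have h4 : (Gr e H ω (⟨u, η⟩ : ℂ) 0 0).im = Pois μ (⟨u, η⟩ : ℂ) := by
    rw [hμ.pois (M.sa ω) (z := (⟨u, η⟩ : ℂ)) hη0]
    unfold Gr
    exact im_inner_Rv (M.sa ω) (z := (⟨u, η⟩ : ℂ)) hη0.ne' (e 0)
  have h5 : μ.real (Metric.closedBall u η) / (2 * η) ≤ Pois μ (⟨u, η⟩ : ℂ) := qv_pois μ u hη0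
  rw [h4]
  have h6 : 1 / ((j:ℝ) + 1) ≤ r / 2 := hj.le.trans (min_le_right _ _)
  refine h6.trans (le_trans ?_ h5)
  rw [le_div_iff₀ (by positivity)]
  exact h3

end Pool.Agent.Lib.MP_562b47_mp.QV
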