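import Mathlib
import Pool.Agent.Lib.MP_562b47_mp.QL.Fin
import Pool.Agent.Lib.MP_562b47_mp.QV.Set

/-!
Energy-pointwise Pólya criterion (MP_562b47_mp), module Grow: sets of polynomial growth.
-/

open MeasureTheory Set Filter Topology Complex
open scoped Real ENNReal NNReal InnerProductSpace

namespace Pool.Agent.Lib.MP_562b47_mp.QV

open Pool.Agent.Lib.MP_562b47_mp.QP
open Pool.Agent.Lib.MP_562b47_mp.QL (DE ql_ward)

set_option linter.unusedSectionVars false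

variable {d : ℕ}

/-- the ball of radius `R` -/
def ballZ (d : ℕ) (R : ℝ) : Set (Fin d → ℤ) := {x | ∑ j, (x j : ℝ) ^ 2 ≤ R ^ 2}

theorem finite_ballZ (d : ℕ) (R : ℝ) : (ballZ d R).Finite := by
  obtain ⟨N, hN⟩ := exists_nat_gt |R|
  refine (cube d N).finite_toSet.subset fun x hx => ?_
  by_contra h
  have h1 := sq_le_of_notMem (fun h2 => h (Finset.mem_coe.2 h2))
  have h2 : ∑ j, (x j : ℝ) ^ 2 ≤ R ^ 2 := hx
  have h3 : R ^ 2 < (N : ℝ) ^ 2 := by
    rw [← sq_abs R]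
    exact pow_lt_pow_left₀ hN (abs_nonneg _) (by norm_num)
  linarith

/-- the mass outside of a set at the energy `u` -/
noncomputable def qS (d : ℕ) (c : ℝ) (S : Set (Fin d → ℤ)) (u η : ℝ) : ℝ≥0∞ :=
  ENNReal.ofReal η * ∫⁻ ω, ∑' x : {x : Fin d → ℤ // x ∉ S}, ‖Gr (ee d) (HH d c) ω (⟨u, η⟩ : ℂ) 0 x‖ₑ ^ 2
    ∂(PP (Fin d → ℤ) c)

/-- the mean square displacement at the energy `u` -/
noncomputable def DD (d : ℕ) (c u η : ℝ) : ℝ≥0∞ := ENNReal.ofReal η * DE d c ⟨u, η⟩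

/-- the least growth constant of a set which carries the particle at the energy `u` -/
noncomputable def LL (d : ℕ) (c κ δ u η : ℝ) : ℝ≥0∞ :=
  ⨅ (L : ℝ≥0) (S : Set (Fin d → ℤ))
    (_ : (∀ R : ℝ, 0 ≤ R → ((S ∩ ballZ d R).ncard : ℝ) ≤ L * (1 + R) ^ κ) ∧
      qS d c S u η ≤ ENNReal.ofReal δ), (L : ℝ≥0∞)

theorem LL_anti {c κ δ δ' : ℝ} (h : δ' ≤ δ) (u η : ℝ) : LL d c κ δ u η ≤ LL d c κ δ' u η := by
  unfold LL
  refine le_iInf₂ fun L S => le_iInf fun hLS => ?_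
  refine iInf₂_le_of_le L S (iInf_le_of_le ⟨hLS.1, hLS.2.trans ?_⟩ le_rfl)
  exact ENNReal.ofReal_le_ofReal h

theorem oo_le_of_qS {c : ℝ} (hc : 0 < c) {δ u η : ℝ} (hη : 0 < η) (hδ : 0 ≤ δ)
    (B : Finset (Fin d → ℤ)) (h : qS d c (B : Set (Fin d → ℤ)) u η ≤ ENNReal.ofReal δ) :
    oo c (ee d) (HH d c) B u η ≤ δ := by
  have := PP_prob (Fin d → ℤ) hc
  set M := model (d := d) hc with hM
  have hz : 0 < (⟨u, η⟩ : ℂ).im := hη
  have hnn : ∀ ω, 0 ≤ (Gr (ee d) (HH d c) ω (⟨u, η⟩ : ℂ) 0 0).im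
        - η * ∑ y ∈ B, ‖Gr (ee d) (HH d c) ω (⟨u, η⟩ : ℂ) 0 y‖ ^ 2 := fun ω => by
    have := ward_G M 0 ω hz B
    exact sub_nonneg.2 this
  have hi := (oo_integrable M B (u := u) hη).2.1
  have h1 : ENNReal.ofReal (oo c (ee d) (HH d c) B u η) = qS d c (B : Set (Fin d → ℤ)) u η := by
    unfold oo qS
    rw [ofReal_integral_eq_lintegral_ofReal hi (ae_of_all _ hnn),
      ← lintegral_const_mul' _ _ ENNReal.ofReal_ne_top]
    refine lintegral_congr fun ω => ?_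
    have h2 := ql_ward hc hz B ω
    simp only at h2
    rw [h2]
    congr 1
    have h3 := tsum_subtype (B : Set (Fin d → ℤ))ᶜ
      fun x : Fin d → ℤ => ‖Gr (ee d) (HH d c) ω (⟨u, η⟩ : ℂ) 0 x‖ₑ ^ 2
    refine Eq.trans (tsum_congr fun y => ?_) h3.symm
    by_cases hy : y ∈ B
    · rw [if_pos hy, indicator_of_notMem (by simpa using hy)]
    · rw [if_neg hy, indicator_of_mem (by simpa using hy)]
  rw [← h1] at h
  exact (ENNReal.ofReal_le_ofReal_iff hδ).1 h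

/-- sums over complements -/
theorem qv_split (f : (Fin d → ℤ) → ℝ≥0∞) (A B S : Set (Fin d → ℤ)) (h : A ∩ B ⊆ S) :
    ∑' x : {x // x ∉ S}, f x ≤ ∑' x : {x // x ∉ A}, f x + ∑' x : {x // x ∉ B}, f x := by
  have e : ∀ C : Set (Fin d → ℤ), ∑' x : {x // x ∉ C}, f x = ∑' x, (Cᶜ).indicator f x := fun C =>
    tsum_subtype Cᶜ f
  rw [e, e, e, ← ENNReal.tsum_add]
  refine ENNReal.tsum_le_tsum fun x => ?_
  by_cases hx : x ∈ S
  · rw [indicator_of_notMem (by simpa using hx)]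
    exact zero_le
  · rw [indicator_of_mem (by simpa using hx)]
    by_cases hA : x ∈ A
    · have hB : x ∉ B := fun hB => hx (h ⟨hA, hB⟩)
      rw [indicator_of_mem (s := Bᶜ) (by simpa using hB)]
      exact le_add_self
    · rw [indicator_of_mem (s := Aᶜ) (by simpa using hA)]
      exact le_self_add

theorem qS_meas {c : ℝ} (hc : 0 < c) (S : Set (Fin d → ℤ)) {u η : ℝ} (hη : 0 < η) :
    Measurable fun ω : (Fin d → ℤ) → ℝ =>
      ∑' x : {x : Fin d → ℤ // x ∉ S}, ‖Gr (ee d) (HH d c) ω (⟨u, η⟩ : ℂ) 0 x‖ₑ ^ 2 := by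
  refine Measurable.tsum fun x => ?_
  exact ((model hc).continuous_Gr continuous_id continuous_const
    (fun _ => hη) 0 x.1).enorm.measurable.pow_const 2

theorem qS_ball {c : ℝ} {δ u η a R : ℝ} (h : DD d c u η ≤ ENNReal.ofReal a)
    (hR : 0 < R) (hR2 : a ≤ δ * R ^ 2) :
    qS d c (ballZ d R) u η ≤ ENNReal.ofReal δ := by
  have hR0 : 0 < R ^ 2 := by positivity
  have h1 : ENNReal.ofReal (R ^ 2) * qS d c (ballZ d R) u η ≤ DD d c u η := by
    unfold qS DD DE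
    rw [mul_left_comm, ← lintegral_const_mul' _ _ ENNReal.ofReal_ne_top]
    refine mul_le_mul' le_rfl (lintegral_mono fun ω => ?_)
    rw [← ENNReal.tsum_mul_left]
    have e := tsum_subtype (ballZ d R)ᶜ fun x : Fin d → ℤ =>
      ENNReal.ofReal (R ^ 2) * ‖Gr (ee d) (HH d c) ω (⟨u, η⟩ : ℂ) 0 x‖ₑ ^ 2
    refine le_trans (le_of_eq e) (ENNReal.tsum_le_tsum fun x => ?_)
    by_cases hx : x ∈ ballZ d R
    · rw [indicator_of_notMem (by simpa using hx)]
      exact zero_le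
    · rw [indicator_of_mem (by simpa using hx)]
      gcongr
      have h : ¬ ∑ j, (x j : ℝ) ^ 2 ≤ R ^ 2 := hx
      exact (not_le.1 h).le
  have h2 : ENNReal.ofReal a ≤ ENNReal.ofReal (R ^ 2) * ENNReal.ofReal δ := by
    rw [← ENNReal.ofReal_mul hR0.le]
    refine ENNReal.ofReal_le_ofReal ?_
    linarith
  refine (ENNReal.mul_le_mul_iff_right (a := ENNReal.ofReal (R ^ 2)) ?_
    ENNReal.ofReal_ne_top).mp (h1.trans (h.trans h2))
  exact (ENNReal.ofReal_pos.mpr hR0).ne'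

/-- a set of small growth gives few sites -/
theorem NN_le_LL {c : ℝ} (hc : 0 < c) {κ : ℝ} (hκ : 0 ≤ κ) {δ u η a : ℝ} (hδ : 0 < δ) (hη : 0 < η)
    (ha : 0 ≤ a) (h : DD d c u η ≤ ENNReal.ofReal a) :
    NN c (ee d) (HH d c) δ u η ≤
      LL d c κ (δ / 2) u η * ENNReal.ofReal ((2 + √(2 / δ)) ^ κ * (1 + a) ^ (κ / 2)) := by
  set R : ℝ := √(2 * a / δ + 1) with hRd
  have hR0 : 0 < R := Real.sqrt_pos.2 (by positivity)
  have hR2 : R ^ 2 = 2 * a / δ + 1 := Real.sq_sqrt (by positivity)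
  have hball := qS_ball (δ := δ / 2) h hR0 (by
    rw [hR2]
    have : δ / 2 * (2 * a / δ + 1) = a + δ / 2 := by
      field_simp
    rw [this]
    linarith)
  have hX : (1 + R) ^ κ ≤ (2 + √(2 / δ)) ^ κ * (1 + a) ^ (κ / 2) := by
    have h1 : 1 + R ≤ (2 + √(2 / δ)) * √(1 + a) := by
      have h2 : R ≤ √(2 / δ) * √a + 1 := by
        rw [hRd, Real.sqrt_le_left (by positivity)]
        have h3 : (√(2 / δ)) ^ 2 = 2 / δ := Real.sq_sqrt (by positivity)
        have h4 : (√a) ^ 2 = a := Real.sq_sqrt ha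
        have h5 : (√(2 / δ) * √a + 1) ^ 2 = 2 / δ * a + 1 + 2 * (√(2 / δ) * √a) := by
          rw [add_sq, mul_pow, h3, h4]
          ring
        rw [h5]
        have h6 : 0 ≤ √(2 / δ) * √a := by positivity
        have h7 : 2 * a / δ = 2 / δ * a := by ring
        linarith
      have h3 : √a ≤ √(1 + a) := Real.sqrt_le_sqrt (by linarith)
      have h4 : 1 ≤ √(1 + a) := by
        rw [Real.one_le_sqrt]
        linarith
      have h5 : 0 ≤ √(2 / δ) := Real.sqrt_nonneg _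
      nlinarith [mul_le_mul_of_nonneg_left h3 h5]
    have h2 : (1 + R) ^ κ ≤ ((2 + √(2 / δ)) * √(1 + a)) ^ κ :=
      Real.rpow_le_rpow (by positivity) h1 hκ
    have h3 : ((2 + √(2 / δ)) * √(1 + a)) ^ κ = (2 + √(2 / δ)) ^ κ * (1 + a) ^ (κ / 2) := by
      rw [Real.mul_rpow (by positivity) (by positivity), Real.sqrt_eq_rpow (1 + a),
        ← Real.rpow_mul (by linarith)]
      congr 2
      ring
    rw [← h3]
    exact h2
  set X : ℝ := (2 + √(2 / δ)) ^ κ * (1 + a) ^ (κ / 2) with hXd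
  have hX0 : 0 < X := by positivity
  have hXe : ENNReal.ofReal X ≠ 0 := by simpa using hX0
  rw [← ENNReal.div_le_iff hXe ENNReal.ofReal_ne_top]
  unfold LL
  refine le_iInf₂ fun L S => le_iInf fun hLS => ?_
  obtain ⟨hL, hs⟩ := hLS
  rw [ENNReal.div_le_iff hXe ENNReal.ofReal_ne_top]
  have hfin : (S ∩ ballZ d R).Finite := (finite_ballZ d R).subset inter_subset_right
  have hS : ((hfin.toFinset : Finset (Fin d → ℤ)) : Set (Fin d → ℤ)) = S ∩ ballZ d R :=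
    hfin.coe_toFinset
  have hout : qS d c (hfin.toFinset : Set (Fin d → ℤ)) u η ≤ ENNReal.ofReal δ := by
    have hadd : ENNReal.ofReal δ = ENNReal.ofReal (δ / 2) + ENNReal.ofReal (δ / 2) := by
      rw [← ENNReal.ofReal_add (by positivity) (by positivity)]
      congr 1
      ring
    rw [hadd]
    refine le_trans ?_ (add_le_add hs hball)
    unfold qS
    rw [← mul_add, ← lintegral_add_left (qS_meas hc S hη)]
    refine mul_le_mul' le_rfl (lintegral_mono fun ω => ?_)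
    exact qv_split (fun x => ‖Gr (ee d) (HH d c) ω (⟨u, η⟩ : ℂ) 0 x‖ₑ ^ 2) S (ballZ d R) _ hS.ge
  have h2 : (hfin.toFinset.card : ℝ) ≤ L * (1 + R) ^ κ := by
    have h4 := hL R hR0.le
    rwa [ncard_eq_toFinset_card _ hfin] at h4
  unfold NN
  refine (iInf₂_le hfin.toFinset (oo_le_of_qS hc hη hδ.le _ hout)).trans ?_
  rw [← ENNReal.ofReal_natCast, ← ENNReal.ofReal_coe_nnreal, ← ENNReal.ofReal_mul L.coe_nonneg]
  refine ENNReal.ofReal_le_ofReal (h2.trans ?_)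
  exact mul_le_mul_of_nonneg_left hX L.coe_nonneg

/-- **The integrals converge at a transient energy.** -/
theorem grow_fin {c : ℝ} (hc : 0 < c) {K : ℝ} (hK : 0 ≤ K)
    (hDE : ∀ u η : ℝ, 0 < η → η ≤ 1 → DE d c ⟨u, η⟩ ≤ ENNReal.ofReal (K / η ^ 2)) {u : ℝ}
    (hu : u ∈ TT c (ee d) (HH d c)) :
    ∃ δ : ℝ, 0 < δ ∧ ∀ κ : ℝ, 0 ≤ κ →
      ∫⁻ η in Ioo 0 δ, ENNReal.ofReal (1 / η ^ 2) * (LL d c κ δ u η)⁻¹ *
        (1 + DD d c u η) ^ (-κ / 2) < ⊤ ∧
      ∫⁻ η in Ioo 0 δ, ENNReal.ofReal (η ^ (κ / 2 - 2)) * (LL d c κ δ u η)⁻¹ < ⊤ := by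
  obtain ⟨δ, hδ, hT⟩ := hu
  refine ⟨min (δ / 2) 1, lt_min (half_pos hδ) one_pos, fun κ hκ => ?_⟩
  set δ' : ℝ := min (δ / 2) 1 with hδ'
  have hle : δ' ≤ δ / 2 := min_le_left _ _
  set A : ℝ := (2 + √(2 / δ)) ^ κ with hAd
  have hA0 : 0 < A := by positivity
  have hpt : ∀ η ∈ Ioo 0 δ', ENNReal.ofReal (1 / η ^ 2) * (LL d c κ δ' u η)⁻¹ *
        (1 + DD d c u η) ^ (-κ / 2) ≤ ENNReal.ofReal A * II c (ee d) (HH d c) δ u η ∧
      ENNReal.ofReal (η ^ (κ / 2 - 2)) * (LL d c κ δ' u η)⁻¹ ≤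
        ENNReal.ofReal ((1 + K) ^ (κ / 2) * A) * II c (ee d) (HH d c) δ u η := by
    intro η hη
    have hη0 : 0 < η := hη.1
    have hη1 : η ≤ 1 := hη.2.le.trans (min_le_right _ _)
    have hDle : DD d c u η ≤ ENNReal.ofReal (K / η) := by
      unfold DD
      refine (mul_le_mul' le_rfl (hDE u η hη0 hη1)).trans ?_
      rw [← ENNReal.ofReal_mul hη0.le]
      refine ENNReal.ofReal_le_ofReal (le_of_eq ?_)
      field_simp
    set a : ℝ := (DD d c u η).toReal with had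
    have hatop : DD d c u η ≠ ⊤ := ne_top_of_le_ne_top ENNReal.ofReal_ne_top hDle
    have ha0 : 0 ≤ a := ENNReal.toReal_nonneg
    have hAa : DD d c u η = ENNReal.ofReal a := (ENNReal.ofReal_toReal hatop).symm
    have haD : a ≤ K / η := by
      have := ENNReal.toReal_mono ENNReal.ofReal_ne_top hDle
      rwa [ENNReal.toReal_ofReal (by positivity)] at this
    have hle2 := NN_le_LL hc hκ hδ hη0 ha0 hAa.le
    rw [← hAd] at hle2
    have hpow : (1 + DD d c u η) ^ (-κ / 2) = ENNReal.ofReal ((1 + a) ^ (-κ / 2)) := by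
      rw [hAa, ← ENNReal.ofReal_one, ← ENNReal.ofReal_add one_pos.le ha0,
        ENNReal.ofReal_rpow_of_pos (by linarith)]
    have hneg : (1 + a) ^ (-κ / 2) = ((1 + a) ^ (κ / 2))⁻¹ := by
      rw [← Real.rpow_neg (by linarith)]
      congr 1
      ring
    have hY0 : 0 < (1 + a) ^ (κ / 2) := by positivity
    have key : (LL d c κ δ' u η)⁻¹ * (1 + DD d c u η) ^ (-κ / 2) ≤
        ENNReal.ofReal A * (NN c (ee d) (HH d c) δ u η)⁻¹ := by
      have h1 := ENNReal.inv_le_inv.2 hle2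
      rw [ENNReal.ofReal_mul hA0.le] at h1
      rw [ENNReal.mul_inv (Or.inr (by finiteness)) (Or.inr (by
        have h3 : ENNReal.ofReal A ≠ 0 := by simpa using hA0
        have h4 : ENNReal.ofReal ((1 + a) ^ (κ / 2)) ≠ 0 := by simpa using hY0
        exact mul_ne_zero h3 h4)),
        ENNReal.mul_inv (Or.inr ENNReal.ofReal_ne_top) (Or.inl ENNReal.ofReal_ne_top)] at h1
      have h2 : ENNReal.ofReal A * ((LL d c κ (δ / 2) u η)⁻¹ *
          ((ENNReal.ofReal A)⁻¹ * (ENNReal.ofReal ((1 + a) ^ (κ / 2)))⁻¹)) =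
          (LL d c κ (δ / 2) u η)⁻¹ * (1 + DD d c u η) ^ (-κ / 2) := by
        rw [hpow, hneg, ENNReal.ofReal_inv_of_pos hY0, mul_left_comm, ← mul_assoc (ENNReal.ofReal A),
          ENNReal.mul_inv_cancel (by simpa using hA0) ENNReal.ofReal_ne_top, one_mul]
      have h5 : (LL d c κ δ' u η)⁻¹ ≤ (LL d c κ (δ / 2) u η)⁻¹ :=
        ENNReal.inv_le_inv.2 (LL_anti hle u η)
      refine (mul_le_mul' h5 le_rfl).trans ?_
      rw [← h2]
      gcongr
    constructor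
    · rw [mul_assoc]
      refine (mul_le_mul' le_rfl key).trans (le_of_eq ?_)
      unfold II
      rw [one_div, mul_left_comm]
    · have h5 : ENNReal.ofReal (η ^ (κ / 2 - 2)) ≤ ENNReal.ofReal ((1 + K) ^ (κ / 2)) *
          (ENNReal.ofReal ((η ^ 2)⁻¹) * (1 + DD d c u η) ^ (-κ / 2)) := by
        rw [hpow, ← ENNReal.ofReal_mul (by positivity), ← ENNReal.ofReal_mul (by positivity)]
        refine ENNReal.ofReal_le_ofReal ?_
        have h6 : 1 + a ≤ (1 + K) / η := by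
          rw [add_div]
          have : 1 ≤ 1 / η := by
            rw [le_div_iff₀ hη0]
            linarith
          linarith
        have h7 : ((1 + K) / η) ^ (-κ / 2) ≤ (1 + a) ^ (-κ / 2) :=
          Real.rpow_le_rpow_of_nonpos (by linarith) h6 (by linarith)
        have h8 : η ^ (κ / 2 - 2) = (η ^ 2)⁻¹ * η ^ (κ / 2) := by
          rw [Real.rpow_sub hη0, Real.rpow_two, div_eq_inv_mul]
        have h9 : ((1 + K) / η) ^ (-κ / 2) = ((1 + K) ^ (κ / 2))⁻¹ * η ^ (κ / 2) := by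
          rw [Real.div_rpow (by positivity) hη0.le, show -κ / 2 = -(κ / 2) by ring,
            Real.rpow_neg (by positivity), Real.rpow_neg hη0.le, div_inv_eq_mul]
        rw [h9] at h7
        have hK0 : 0 < (1 + K) ^ (κ / 2) := by positivity
        rw [h8]
        calc (η ^ 2)⁻¹ * η ^ (κ / 2)
            = (1 + K) ^ (κ / 2) * ((η ^ 2)⁻¹ * (((1 + K) ^ (κ / 2))⁻¹ * η ^ (κ / 2))) := by
              field_simp
          _ ≤ (1 + K) ^ (κ / 2) * ((η ^ 2)⁻¹ * (1 + a) ^ (-κ / 2)) := by gcongr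
      calc ENNReal.ofReal (η ^ (κ / 2 - 2)) * (LL d c κ δ' u η)⁻¹
          ≤ (ENNReal.ofReal ((1 + K) ^ (κ / 2)) *
            (ENNReal.ofReal ((η ^ 2)⁻¹) * (1 + DD d c u η) ^ (-κ / 2))) *
            (LL d c κ δ' u η)⁻¹ := by gcongr
        _ = (ENNReal.ofReal ((1 + K) ^ (κ / 2)) * ENNReal.ofReal ((η ^ 2)⁻¹)) *
            ((LL d c κ δ' u η)⁻¹ * (1 + DD d c u η) ^ (-κ / 2)) := by ring
        _ ≤ (ENNReal.ofReal ((1 + K) ^ (κ / 2)) * ENNReal.ofReal ((η ^ 2)⁻¹)) *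
            (ENNReal.ofReal A * (NN c (ee d) (HH d c) δ u η)⁻¹) := by gcongr
        _ = _ := by
            unfold II
            rw [ENNReal.ofReal_mul (by positivity)]
            ring
  have hsub : ∫⁻ η in Ioo 0 δ', II c (ee d) (HH d c) δ u η < ⊤ :=
    lt_of_le_of_lt (lintegral_mono_set (Ioo_subset_Ioo_right (hle.trans (by linarith)))) hT
  constructor
  · refine lt_of_le_of_lt (setLIntegral_mono' measurableSet_Ioo fun η hη => (hpt η hη).1) ?_
    rw [lintegral_const_mul' _ _ ENNReal.ofReal_ne_top]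
    exact ENNReal.mul_lt_top ENNReal.ofReal_lt_top hsub
  · refine lt_of_le_of_lt (setLIntegral_mono' measurableSet_Ioo fun η hη => (hpt η hη).2) ?_
    rw [lintegral_const_mul' _ _ ENNReal.ofReal_ne_top]
    exact ENNReal.mul_lt_top ENNReal.ofReal_lt_top hsub

end Pool.Agent.Lib.MP_562b47_mp.QV
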