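import Mathlib
import Pool.Agent.Lib.MP_562b47_mp.QV.Grow

/-!
Energy-pointwise Pólya criterion (MP_562b47_mp), module Ball: the number of sites in the diffusive
ball.
-/

open MeasureTheory Set Filter Topology Complex
open scoped Real ENNReal NNReal InnerProductSpace

namespace Pool.Agent.Lib.MP_562b47_mp.QV

open Pool.Agent.Lib.MP_562b47_mp.QP
open Pool.Agent.Lib.MP_562b47_mp.QL (DE)

set_option linter.unusedSectionVars false

variable {d : ℕ}

/-- the number of sites in the ball of radius `R` of a set which carries the particle -/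
noncomputable def NB (d : ℕ) (c R δ u η : ℝ) : ℝ≥0∞ :=
  ⨅ (S : Set (Fin d → ℤ)) (_ : qS d c S u η ≤ ENNReal.ofReal δ), ((S ∩ ballZ d R).ncard : ℝ≥0∞)

theorem NN_le_NB {c : ℝ} (hc : 0 < c) {δ δ' u η a R : ℝ} (hδ : 0 < δ) (hδ' : δ' ≤ δ / 2) (hη : 0 < η)
    (h : DD d c u η ≤ ENNReal.ofReal a) (hR : 0 < R) (hR2 : a ≤ δ / 2 * R ^ 2) :
    NN c (ee d) (HH d c) δ u η ≤ NB d c R δ' u η := by
  have hball := qS_ball (δ := δ / 2) h hR hR2
  unfold NB
  refine le_iInf₂ fun S hs => ?_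
  have hfin : (S ∩ ballZ d R).Finite := (finite_ballZ d R).subset inter_subset_right
  have hS : ((hfin.toFinset : Finset (Fin d → ℤ)) : Set (Fin d → ℤ)) = S ∩ ballZ d R :=
    hfin.coe_toFinset
  have hout : qS d c (hfin.toFinset : Set (Fin d → ℤ)) u η ≤ ENNReal.ofReal δ := by
    have hadd : ENNReal.ofReal δ = ENNReal.ofReal (δ / 2) + ENNReal.ofReal (δ / 2) := by
      rw [← ENNReal.ofReal_add (by positivity) (by positivity)]
      congr 1
      ring
    rw [hadd]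
    refine le_trans ?_ (add_le_add (hs.trans (ENNReal.ofReal_le_ofReal hδ')) hball)
    unfold qS
    rw [← mul_add, ← lintegral_add_left (qS_meas hc S hη)]
    refine mul_le_mul' le_rfl (lintegral_mono fun ω => ?_)
    exact qv_split (fun x => ‖Gr (ee d) (HH d c) ω (⟨u, η⟩ : ℂ) 0 x‖ₑ ^ 2) S (ballZ d R) _ hS.ge
  unfold NN
  refine (iInf₂_le hfin.toFinset (oo_le_of_qS hc hη hδ.le _ hout)).trans ?_
  rw [ncard_eq_toFinset_card _ hfin]

/-- **The integral converges at a transient energy.** -/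
theorem ball_fin {c : ℝ} (hc : 0 < c) {K : ℝ} (hK : 0 ≤ K)
    (hDE : ∀ u η : ℝ, 0 < η → η ≤ 1 → DE d c ⟨u, η⟩ ≤ ENNReal.ofReal (K / η ^ 2)) {u : ℝ}
    (hu : u ∈ TT c (ee d) (HH d c)) :
    ∃ δ : ℝ, 0 < δ ∧ ∫⁻ η in Ioo 0 δ, ENNReal.ofReal (1 / η ^ 2) *
      (NB d c (1 / (δ * √η)) δ u η)⁻¹ < ⊤ := by
  obtain ⟨δ, hδ, hT⟩ := hu
  set δ' : ℝ := min (δ / 2) (min 1 (δ / (2 * (K + 1)))) with hδ'
  have hp : 0 < δ' := lt_min (half_pos hδ) (lt_min one_pos (by positivity))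
  have hle : δ' ≤ δ / 2 := min_le_left _ _
  have hle1 : δ' ≤ 1 := (min_le_right _ _).trans (min_le_left _ _)
  have hleK : δ' ≤ δ / (2 * (K + 1)) := (min_le_right _ _).trans (min_le_right _ _)
  refine ⟨δ', hp, lt_of_le_of_lt ?_ hT⟩
  refine le_trans ?_ (lintegral_mono_set (Ioo_subset_Ioo_right (hle.trans (by linarith))))
  refine setLIntegral_mono' measurableSet_Ioo fun η hη => ?_
  have hη0 : 0 < η := hη.1
  have hη1 : η ≤ 1 := hη.2.le.trans hle1
  have hDle : DD d c u η ≤ ENNReal.ofReal (K / η) := by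
    unfold DD
    refine (mul_le_mul' le_rfl (hDE u η hη0 hη1)).trans ?_
    rw [← ENNReal.ofReal_mul hη0.le]
    refine ENNReal.ofReal_le_ofReal (le_of_eq ?_)
    field_simp
  unfold II
  rw [one_div]
  refine mul_le_mul' le_rfl (ENNReal.inv_le_inv.2 ?_)
  refine NN_le_NB hc hδ hle hη0 hDle (by positivity) ?_
  rw [div_pow, mul_pow, Real.sq_sqrt hη0.le, one_pow, mul_one_div,
    div_le_div_iff₀ hη0 (by positivity)]
  have h1 : K * δ' ^ 2 ≤ δ / 2 := by
    have h2 : δ' * (2 * (K + 1)) ≤ δ := (le_div_iff₀ (by positivity)).1 hleK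
    nlinarith [mul_nonneg hK hp.le, mul_nonneg (mul_nonneg hK hp.le) (sub_nonneg.2 hle1)]
  calc K * (δ' ^ 2 * η) = K * δ' ^ 2 * η := by ring
    _ ≤ δ / 2 * η := mul_le_mul_of_nonneg_right h1 hη0.le

end Pool.Agent.Lib.MP_562b47_mp.QV
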