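import Mathlib
import Pool.Agent.Lib.MP_562b47_mp.WindowB
import Pool.Agent.Lib.MP_562b47_mp.QL.AC

/-!
Energy-pointwise Pólya criterion (MP_562b47_mp), module Sing: no absolutely continuous part in a set
of energies, from one vector to all vectors.
-/

open MeasureTheory Set Filter Topology Complex
open scoped Real ENNReal NNReal InnerProductSpace

set_option linter.unusedSectionVars false

namespace Pool.Agent.Lib.MP_562b47_mp.QV

open Pool.Agent.Lib.MP_562b47_mp.QL (NoAC)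

section sing

variable {E : Type*} [NormedAddCommGroup E] [InnerProductSpace ℂ E] [CompleteSpace E]

/-- `Im z ‖R(z) u‖²` tends to zero in measure on `A` -/
def SingA (H : E →L[ℂ] E) (A : Set ℝ) (u : E) : Prop :=
  Tendsto (fun k => ∫⁻ s in A, min 1 (ENNReal.ofReal (Zt (tk k) s).im
    * ‖Rv H (Zt (tk k) s) u‖ₑ ^ 2) ∂kap) atTop (𝓝 0)

theorem lint_min_eqA {H : E →L[ℂ] E} (hH : IsSelfAdjoint H) (A : Set ℝ) {u : E} {μ : Measure ℝ}
    [IsFiniteMeasure μ] (hμ : IsSpec H u μ) (k : ℕ) :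
    ∫⁻ s in A, min 1 (ENNReal.ofReal (Zt (tk k) s).im * ‖Rv H (Zt (tk k) s) u‖ₑ ^ 2) ∂kap
      = ENNReal.ofReal (∫ s in A, min 1 (Pois μ (Zt (tk k) s)) ∂kap) := by
  rw [ofReal_integral_eq_lintegral_ofReal]
  · refine lintegral_congr fun s => ?_
    rw [ofReal_Pois_eq hH hμ (Zt_im_pos (tk_pos k) s), ENNReal.ofReal_min, ENNReal.ofReal_one]
  · exact (integrable_min_one (measurable_Pois μ (tk k)) fun s => Pois_nonneg μ
      (Zt_im_pos (tk_pos k) s)).integrableOn
  · exact ae_of_all _ fun s => le_min zero_le_one (Pois_nonneg μ (Zt_im_pos (tk_pos k) s))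

theorem SingA.noAC {H : E →L[ℂ] E} (hH : IsSelfAdjoint H) {A : Set ℝ} {u : E} {μ : Measure ℝ}
    [IsFiniteMeasure μ] (hμ : IsSpec H u μ) (h : SingA H A u) : NoAC μ A := by
  have h1 := (pois_tendsto μ).comp tendsto_tk
  have h0 : Tendsto (fun k => ∫ s in A, min 1 (Pois μ (Zt (tk k) s)) ∂kap) atTop (𝓝 0) := by
    unfold SingA at h
    simp_rw [lint_min_eqA hH A hμ] at h
    have h2 := (ENNReal.tendsto_toReal (by norm_num : (0:ℝ≥0∞) ≠ ⊤)).comp h
    rw [ENNReal.toReal_zero] at h2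
    refine h2.congr fun k => ?_
    simp only [Function.comp_apply]
    exact ENNReal.toReal_ofReal (integral_nonneg fun s => le_min zero_le_one
      (Pois_nonneg μ (Zt_im_pos (tk_pos k) s)))
  have h2 := h1.add h0
  rw [add_zero] at h2
  have hD : ∀ x, 0 ≤ min 1 (Dens μ x) := fun x => le_min zero_le_one (Dens_nonneg μ x)
  have hint : Integrable (fun x => min 1 (Dens μ x)) kap :=
    integrable_min_one (measurable_Dens μ) (Dens_nonneg μ)
  have h3 : ∫ x in A, min 1 (Dens μ x) ∂kap ≤ 0 := by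
    refine ge_of_tendsto' h2 fun k => ?_
    have hPm : Measurable (fun x => Pois μ (Zt (tk k) x)) := measurable_Pois μ (tk k)
    have hP0 : ∀ x, 0 ≤ Pois μ (Zt (tk k) x) := fun x => Pois_nonneg μ (Zt_im_pos (tk_pos k) x)
    have i1 : Integrable (fun x => min 1 |Pois μ (Zt (tk k) x) - Dens μ x|) kap :=
      integrable_min_one ((hPm.sub (measurable_Dens μ)).abs) (fun x => abs_nonneg _)
    have i2 : Integrable (fun x => min 1 (Pois μ (Zt (tk k) x))) kap :=
      integrable_min_one hPm hP0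
    have : ∫ x in A, min 1 (Dens μ x) ∂kap ≤ ∫ x in A, (min 1 |Pois μ (Zt (tk k) x) - Dens μ x|
        + min 1 (Pois μ (Zt (tk k) x))) ∂kap := by
      refine integral_mono hint.integrableOn (i1.add i2).integrableOn fun x => ?_
      have h4 : Dens μ x ≤ |Pois μ (Zt (tk k) x) - Dens μ x| + Pois μ (Zt (tk k) x) := by
        have := neg_abs_le (Pois μ (Zt (tk k) x) - Dens μ x)
        linarith
      exact (min_le_min_left 1 h4).trans (min_one_add_le' (abs_nonneg _) (hP0 x))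
    rw [integral_add i1.integrableOn i2.integrableOn] at this
    refine this.trans (add_le_add_left ?_ _)
    exact setIntegral_le_integral i1 (ae_of_all _ fun x => le_min zero_le_one (abs_nonneg _))
  have h4 : ∫ x in A, min 1 (Dens μ x) ∂kap = 0 := le_antisymm h3 (integral_nonneg hD)
  rw [integral_eq_zero_iff_of_nonneg hD hint.integrableOn] at h4
  have hac : (volume.restrict A) ≪ (kap.restrict A) := ac_kap.restrict A
  unfold NoAC
  filter_upwards [hac.ae_le h4] with s hs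
  have hs' : min 1 (Dens μ s) = 0 := hs
  rcases min_choice (1:ℝ) (Dens μ s) with h6 | h6
  · rw [h6] at hs'; norm_num at hs'
  · rw [h6] at hs'; exact hs'

theorem singA_of_noAC {H : E →L[ℂ] E} (hH : IsSelfAdjoint H) {A : Set ℝ} {u : E} {μ : Measure ℝ}
    [IsFiniteMeasure μ] (hμ : IsSpec H u μ) (h : NoAC μ A) : SingA H A u := by
  unfold SingA
  simp_rw [lint_min_eqA hH A hμ]
  rw [← ENNReal.ofReal_zero]
  refine ENNReal.tendsto_ofReal ?_
  have h1 := (pois_tendsto μ).comp tendsto_tk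
  refine tendsto_of_tendsto_of_tendsto_of_le_of_le tendsto_const_nhds h1
    (fun k => integral_nonneg fun s => le_min zero_le_one
      (Pois_nonneg μ (Zt_im_pos (tk_pos k) s))) fun k => ?_
  have i1 : Integrable (fun x => min 1 |Pois μ (Zt (tk k) x) - Dens μ x|) kap :=
    integrable_min_one ((measurable_Pois μ (tk k)).sub (measurable_Dens μ)).abs
      (fun x => abs_nonneg _)
  refine le_trans ?_ (setIntegral_le_integral (s := A) i1
    (ae_of_all _ fun x => le_min zero_le_one (abs_nonneg _)))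
  refine integral_mono_ae (integrable_min_one (measurable_Pois μ (tk k)) fun s => Pois_nonneg μ
      (Zt_im_pos (tk_pos k) s)).integrableOn i1.integrableOn ?_
  have h2 : ∀ᵐ s ∂(kap.restrict A), Dens μ s = 0 := (kap_ac.restrict A).ae_le h
  filter_upwards [h2] with s hs
  rw [hs, sub_zero]
  exact min_le_min_left 1 (le_abs_self _)

theorem lint_add_leA {H : E →L[ℂ] E} (hH : IsSelfAdjoint H) (A : Set ℝ) (u v : E) (k : ℕ) :
    ∫⁻ s in A, min 1 (ENNReal.ofReal (Zt (tk k) s).im * ‖Rv H (Zt (tk k) s) (u + v)‖ₑ ^ 2) ∂kap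
      ≤ 2 * ∫⁻ s in A, min 1 (ENNReal.ofReal (Zt (tk k) s).im
          * ‖Rv H (Zt (tk k) s) u‖ₑ ^ 2) ∂kap
        + 2 * ∫⁻ s in A, min 1 (ENNReal.ofReal (Zt (tk k) s).im
          * ‖Rv H (Zt (tk k) s) v‖ₑ ^ 2) ∂kap := by
  rw [← lintegral_const_mul _ (measurable_const.min (measurable_ImRv hH u k)),
    ← lintegral_const_mul _ (measurable_const.min (measurable_ImRv hH v k)),
    ← lintegral_add_left ((measurable_const.min (measurable_ImRv hH u k)).const_mul 2)]
  refine lintegral_mono fun s => ?_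
  refine le_trans (min_le_min_left 1 ?_) (min_one_two_mul _ _)
  rw [map_add]
  calc ENNReal.ofReal (Zt (tk k) s).im * ‖Rv H (Zt (tk k) s) u + Rv H (Zt (tk k) s) v‖ₑ ^ 2
      ≤ ENNReal.ofReal (Zt (tk k) s).im * (2 * ‖Rv H (Zt (tk k) s) u‖ₑ ^ 2
        + 2 * ‖Rv H (Zt (tk k) s) v‖ₑ ^ 2) := by
        gcongr
        exact (pow_le_pow_left' (enorm_add_le _ _) 2).trans (sq_two _ _)
    _ = _ := by ring

theorem SingA.add {H : E →L[ℂ] E} (hH : IsSelfAdjoint H) {A : Set ℝ} {u v : E} (hu : SingA H A u)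
    (hv : SingA H A v) : SingA H A (u + v) := by
  have h1 := (ENNReal.Tendsto.const_mul (a := 2) hu (Or.inr (by norm_num))).add
    (ENNReal.Tendsto.const_mul (a := 2) hv (Or.inr (by norm_num)))
  rw [mul_zero, add_zero] at h1
  exact tendsto_of_tendsto_of_tendsto_of_le_of_le tendsto_const_nhds h1 (fun k => bot_le)
    fun k => lint_add_leA hH A u v k

theorem singA_zero (H : E →L[ℂ] E) (A : Set ℝ) : SingA H A 0 := by
  unfold SingA
  simp

theorem SingA.smul {H : E →L[ℂ] E} {A : Set ℝ} {u : E} (a : ℂ) (hu : SingA H A u) :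
    SingA H A (a • u) := by
  have hC : ENNReal.ofReal (max 1 (‖a‖ ^ 2)) ≠ ⊤ := ENNReal.ofReal_ne_top
  have h1 := ENNReal.Tendsto.const_mul (a := ENNReal.ofReal (max 1 (‖a‖ ^ 2))) hu (Or.inr hC)
  rw [mul_zero] at h1
  refine tendsto_of_tendsto_of_tendsto_of_le_of_le tendsto_const_nhds h1 (fun k => bot_le)
    fun k => ?_
  change _ ≤ ENNReal.ofReal (max 1 (‖a‖ ^ 2)) * _
  rw [← lintegral_const_mul' _ _ hC]
  refine lintegral_mono fun s => ?_
  rw [map_smul, enorm_smul]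
  have h2 : ‖a‖ₑ ^ 2 ≤ ENNReal.ofReal (max 1 (‖a‖ ^ 2)) := by
    rw [← ofReal_norm, ← ENNReal.ofReal_pow (norm_nonneg _)]
    exact ENNReal.ofReal_le_ofReal (le_max_right _ _)
  have h3 : 1 ≤ ENNReal.ofReal (max 1 (‖a‖ ^ 2)) := by
    rw [← ENNReal.ofReal_one]
    exact ENNReal.ofReal_le_ofReal (le_max_left _ _)
  set X := ENNReal.ofReal (Zt (tk k) s).im * ‖Rv H (Zt (tk k) s) u‖ₑ ^ 2 with hX
  have e1 : ENNReal.ofReal (Zt (tk k) s).im * (‖a‖ₑ * ‖Rv H (Zt (tk k) s) u‖ₑ) ^ 2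
      = ‖a‖ₑ ^ 2 * X := by rw [hX]; ring
  rw [e1]
  rcases le_total 1 X with h | h
  · rw [min_eq_left h, mul_one]
    exact (min_le_left _ _).trans h3
  · rw [min_eq_right h]
    exact (min_le_right _ _).trans (by gcongr)

/-- closure -/
theorem singA_of_approx {H : E →L[ℂ] E} (hH : IsSelfAdjoint H) {A : Set ℝ} {u : E}
    (h : ∀ ε : ℝ, 0 < ε → ∃ v, SingA H A v ∧ ‖u - v‖ ^ 2 ≤ ε) : SingA H A u := by
  unfold SingA
  rw [ENNReal.tendsto_atTop_zero]
  intro ε hε
  obtain ⟨δ, hδ0, hδ⟩ := exists_ofReal_le (ENNReal.div_pos (ENNReal.half_pos hε.ne').ne'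
    (by norm_num : (2:ℝ≥0∞) ≠ ⊤))
  obtain ⟨v, hv, huv⟩ := h δ hδ0
  have h1 := ENNReal.Tendsto.const_mul (a := 2) hv (Or.inr (by norm_num))
  rw [mul_zero, ENNReal.tendsto_atTop_zero] at h1
  obtain ⟨N, hN⟩ := h1 (ε / 2) (ENNReal.half_pos hε.ne')
  refine ⟨N, fun k hk => ?_⟩
  have h2 := lint_add_leA hH A v (u - v) k
  rw [add_sub_cancel] at h2
  refine h2.trans ?_
  have h3 : ∫⁻ s in A, min 1 (ENNReal.ofReal (Zt (tk k) s).im
      * ‖Rv H (Zt (tk k) s) (u - v)‖ₑ ^ 2) ∂kap ≤ ENNReal.ofReal δ := by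
    refine (setLIntegral_le_lintegral _ _).trans ((lintegral_mono fun s => min_le_right _ _).trans
      ((lintegral_Rv_le hH (tk_pos k) (u - v)).trans ?_))
    rw [← ofReal_norm, ← ENNReal.ofReal_pow (norm_nonneg _)]
    exact ENNReal.ofReal_le_ofReal huv
  calc _ ≤ ε / 2 + 2 * ENNReal.ofReal δ := add_le_add (hN k hk) (by gcongr)
    _ ≤ ε / 2 + ε / 2 := by
        gcongr
        rw [mul_comm]
        exact (ENNReal.le_div_iff_mul_le (Or.inl (by norm_num)) (Or.inl (by norm_num))).mp hδ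
    _ = ε := ENNReal.add_halves ε

end sing

section model

variable {Λ : Type*} [DecidableEq Λ] [AddCommGroup Λ] [Countable Λ] {E : Type*}
  [NormedAddCommGroup E] [InnerProductSpace ℂ E] [CompleteSpace E] {c : ℝ} {e : Λ → E}
  {H : (Λ → ℝ) → (E →L[ℂ] E)}

theorem singA_all (M : Model c e H) (A : Set ℝ) {ω : Λ → ℝ} (h : ∀ x, SingA (H ω) A (e x))
    (u : E) : SingA (H ω) A u := by
  refine singA_of_approx (M.sa ω) fun ε hε => ?_
  have h1 : Tendsto (fun s : Finset Λ => ‖u - ∑ w ∈ s, ⟪e w, u⟫_ℂ • e w‖ ^ 2) atTop (𝓝 0) := by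
    have h2 : Tendsto (fun s : Finset Λ => u - ∑ w ∈ s, ⟪e w, u⟫_ℂ • e w) atTop (𝓝 (u - u)) :=
      tendsto_const_nhds.sub (M.hasSum_repr u)
    rw [sub_self] at h2
    have h3 := h2.norm.pow 2
    simpa using h3
  obtain ⟨s, hs⟩ := (h1.eventually_le_const hε).exists
  refine ⟨_, ?_, hs⟩
  have h2 : ∀ s : Finset Λ, SingA (H ω) A (∑ w ∈ s, ⟪e w, u⟫_ℂ • e w) := by
    intro s
    induction s using Finset.induction_on with
    | empty => rw [Finset.sum_empty]; exact singA_zero _ _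
    | insert w s hw ih =>
      rw [Finset.sum_insert hw]
      exact SingA.add (M.sa ω) ((h w).smul _) ih
  exact h2 _

theorem singA_shift (M : Model c e H) (hcov : ShiftCov e H) (A : Set ℝ) (a : Λ) {ω : Λ → ℝ}
    (h : SingA (H fun j => ω (j + a)) A (e 0)) : SingA (H ω) A (e a) := by
  unfold SingA at h ⊢
  refine h.congr fun k => lintegral_congr fun s => ?_
  have hz := Zt_im_pos (tk_pos k) s
  have h1 : ∀ (ω : Λ → ℝ) (x : Λ), ENNReal.ofReal (Zt (tk k) s).im
      * ‖Rv (H ω) (Zt (tk k) s) (e x)‖ₑ ^ 2 = ENNReal.ofReal (Gr e H ω (Zt (tk k) s) x x).im := by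
    intro ω x
    unfold Gr
    rw [im_inner_Rv (M.sa ω) hz.ne', ENNReal.ofReal_mul hz.le, ENNReal.ofReal_pow (norm_nonneg _),
      ofReal_norm]
  rw [h1, h1, hcov a ω _ 0 0 hz, zero_add]

theorem ae_singA (M : Model c e H) (hcov : ShiftCov e H) (A : Set ℝ)
    (h : ∀ᵐ ω ∂(PP Λ c), ∀ μ : Measure ℝ, IsFiniteMeasure μ → IsSpec (H ω) (e 0) μ →
      NoAC μ A) : ∀ᵐ ω ∂(PP Λ c), ∀ u, SingA (H ω) A u := by
  have := unif_prob M.hc
  have h1 : ∀ᵐ ω ∂(PP Λ c), SingA (H ω) A (e 0) := by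
    filter_upwards [h] with ω hω
    obtain ⟨μ, hfin, hμ⟩ := exists_isSpec (M.sa ω) (e 0)
    exact singA_of_noAC (M.sa ω) hμ (hω μ hfin hμ)
  have h2 : ∀ᵐ ω ∂(PP Λ c), ∀ a : Λ, SingA (H fun j => ω (j + a)) A (e 0) := by
    rw [ae_all_iff]
    intro a
    have h3 : MeasurePreserving (fun ω : Λ → ℝ => fun j => ω (j + a)) (PP Λ c) (PP Λ c) :=
      measurePreserving_shift (Λ := Λ) (unif c) a
    exact h3.quasiMeasurePreserving.ae h1
  filter_upwards [h2] with ω hω u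
  exact singA_all M A (fun a => singA_shift M hcov A a (hω a)) u

end model

variable {d : ℕ} {V : Type*} [NormedAddCommGroup V] [InnerProductSpace ℂ V] [CompleteSpace V]

theorem singA_HB (b : HilbertBasis (Fin d → ℤ) ℂ V) {c : ℝ} (hc : 0 < c) (A : Set ℝ)
    (ω : (Fin d → ℤ) → ℝ) (u : V) (h : SingA (HH d c ω) A (b.repr u)) :
    SingA (HB b c ω) A u := by
  unfold SingA at h ⊢
  refine h.congr fun k => lintegral_congr fun s => ?_
  rw [← Rv_HB b hc ω (Zt_im_pos (tk_pos k) s).ne']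
  congr 3
  rw [← ofReal_norm, ← ofReal_norm, LinearIsometryEquiv.norm_map]

/-- no absolutely continuous part in `A`, for all vectors -/
theorem noAC_HB (b : HilbertBasis (Fin d → ℤ) ℂ V) {c : ℝ} (hc : 0 < c) (A : Set ℝ)
    (h : ∀ᵐ ω ∂(PP (Fin d → ℤ) c), ∀ μ : Measure ℝ, IsFiniteMeasure μ →
      IsSpec (HH d c ω) (ee d 0) μ → NoAC μ A) :
    ∀ᵐ ω ∂(PP (Fin d → ℤ) c), ∀ (u : V) (μ : Measure ℝ), IsFiniteMeasure μ →
      IsSpec (HB b c ω) u μ → NoAC μ A := by
  filter_upwards [ae_singA (model hc) (shiftCov hc) A h] with ω hω u μ hfin hμ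
  exact (singA_HB b hc A ω u (hω _)).noAC (isSelfAdjoint_HB b hc ω) hμ

end Pool.Agent.Lib.MP_562b47_mp.QV
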